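import Pool.Agent.K3h26.KP.Gen

/-!
# Assembly in dimension eight (MP_c4753b_co)
-/

set_option autoImplicit false

open MeasureTheory Filter Topology Set
open scoped ENNReal

namespace Pool.Agent.K3h26.KP

open H947TP

/-- the bound for the lattice tilings -/
def S_LB : Prop := ∃ δ G : ℝ, 0 < δ ∧ δ ≤ 1 / 2 ∧ 0 ≤ G ∧ G < 4 ∧
  ∀ L : AddSubgroup (Fin 8 → ℝ), IsTile L → SSG (Pf δ) L ≤ G

theorem sep8 (hPEN : S_PEN) (hKEL : S_KEL) {δ ε s : ℝ} (hδ : 0 < δ) (hδ1 : δ ≤ 1) (hε : 0 < ε)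
    (hεδ : ε ≤ δ) (hs : s * (1 + ε / 2) = 1) (Z Z' : Fin 8 → ℤ) (hZ : Z ≠ Z') :
    SepG (Pf δ) ε (fun l => s * tau8 kelf Z l - s * tau8 kelf Z' l) := by
  obtain ⟨hpen, hexc, hgg, -, hsc⟩ := hPEN δ hδ hδ1
  have hs0 : 0 < s := by
    by_contra h
    push Not at h
    nlinarith
  have hs1 : s ≤ 1 := by nlinarith
  have hs2 : 2 / 3 ≤ s := by nlinarith
  have habs : ∀ l, |s * tau8 kelf Z l - s * tau8 kelf Z' l| =
      s * |tau8 kelf Z l - tau8 kelf Z' l| := fun l => by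
    rw [← mul_sub, abs_mul, abs_of_pos hs0]
  have key : ∀ k, 1 ≤ |tau8 kelf Z k - tau8 kelf Z' k| →
      s / 2 ≤ Pf δ k (fun l => s * tau8 kelf Z l - s * tau8 kelf Z' l) →
      SepG (Pf δ) ε (fun l => s * tau8 kelf Z l - s * tau8 kelf Z' l) := by
    intro k h1 h2
    refine ⟨k, ?_⟩
    unfold NkG
    simp only
    rw [habs]
    have h3 : s ≤ s * |tau8 kelf Z k - tau8 kelf Z' k| := le_mul_of_one_le_right hs0.le h1
    have h4 : ε * (s / 2) ≤ ε * Pf δ k (fun l => s * tau8 kelf Z l - s * tau8 kelf Z' l) :=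
      mul_le_mul_of_nonneg_left h2 hε.le
    linarith
  rcases hKEL Z Z' hZ with ⟨l, hl⟩ | ⟨k, l, hkl, hk, hl⟩ | ⟨k, hk, hl⟩
  · refine ⟨l, ?_⟩
    unfold NkG
    simp only
    rw [habs]
    have h1 := hpen.nonneg l (fun l => s * tau8 kelf Z l - s * tau8 kelf Z' l)
    have h2 : s * (3 / 2) ≤ s * |tau8 kelf Z l - tau8 kelf Z' l| :=
      mul_le_mul_of_nonneg_left hl hs0.le
    have h3 := mul_nonneg hε.le h1
    linarith
  · refine key k hk ?_
    have h1 := hexc k (fun l => s * tau8 kelf Z l - s * tau8 kelf Z' l) l hkl.symm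
    refine le_trans ?_ h1
    rw [habs, le_div_iff₀ hδ]
    have h3 : s ≤ s * |tau8 kelf Z l - tau8 kelf Z' l| := le_mul_of_one_le_right hs0.le hl
    nlinarith
  · refine key k hk ?_
    refine le_trans ?_ (hgg k (fun l => s * tau8 kelf Z l - s * tau8 kelf Z' l))
    have h1 : (fun l => s * tau8 kelf Z l - s * tau8 kelf Z' l) =
        fun l => s * (fun i => tau8 kelf Z i - tau8 kelf Z' i) l := by
      funext l
      ring
    rw [h1, hsc k _ s hs0.le]
    nlinarith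

theorem core8 (hPEN : S_PEN) (hKEL : S_KEL) (hLB : S_LB) :
    ∃ K : Set (Fin 8 → ℝ), Convex ℝ K ∧ IsCompact K ∧
      (interior K).Nonempty ∧ (∀ x ∈ K, -x ∈ K) ∧ deltaL K < deltaT K := by
  obtain ⟨δ, G, hδ0, hδ1, hG0, hGlt, hS⟩ := hLB
  obtain ⟨hpen, -⟩ := hPEN δ hδ0 (by linarith)
  set G' : ℝ := (G + 4) / 2 with hG'
  have hG'1 : G < G' := by rw [hG']; linarith
  have hG'2 : G' < ((8 : ℕ) : ℝ) / 2 := by rw [hG']; push_cast; linarith
  have hG'0 : 0 ≤ G' := by linarith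
  obtain ⟨ε0, hε0, hL⟩ := L7G hpen G G' hG'0 hG'1 hS
  -- choose ε
  set ε : ℝ := min (ε0 / 2) (min δ ((((8 : ℕ) : ℝ) / 2 - G') / (G' * (8 : ℕ) + 1))) with hε
  have hden : 0 < G' * ((8 : ℕ) : ℝ) + 1 := by positivity
  have hεpos : 0 < ε := by
    refine lt_min (by linarith) (lt_min hδ0 (div_pos (by linarith) hden))
  have hεε0 : ε < ε0 := lt_of_le_of_lt (min_le_left _ _) (by linarith)
  have hεδ : ε ≤ δ := (min_le_right _ _).trans (min_le_left _ _)
  have hε3 : ε ≤ (((8 : ℕ) : ℝ) / 2 - G') / (G' * (8 : ℕ) + 1) :=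
    (min_le_right _ _).trans (min_le_right _ _)
  have hkey : G' * ((8 : ℕ) : ℝ) * ε / 2 < ((8 : ℕ) : ℝ) / 2 - G' := by
    rw [le_div_iff₀ hden] at hε3
    have : 0 ≤ G' * ((8 : ℕ) : ℝ) * ε := by positivity
    nlinarith
  set s : ℝ := 1 / (1 + ε / 2) with hs
  have hs1 : s * (1 + ε / 2) = 1 := by rw [hs]; field_simp
  have hspos : 0 < s := by rw [hs]; positivity
  have hsle : s ≤ 1 := by rw [hs]; rw [div_le_one (by positivity)]; linarith
  obtain ⟨hsd0, hsd⟩ := key_ineq (d := 8) (by omega) hG'0 hεpos hs1 hkey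
  obtain ⟨hconv, hcomp, hint, hsymm, hvol0, hvolt⟩ := P2G hpen hεpos
  refine ⟨bodyG (Pf δ) ε, hconv, hcomp, hint, hsymm, ?_⟩
  have hpack := P3G hpen hεpos
  -- lattice packings
  have hL1 : deltaL (bodyG (Pf δ) ε) ≤
      volume (bodyG (Pf δ) ε) / ENNReal.ofReal (1 - G' * ε) := by
    unfold deltaL
    refine iSup_le fun X => iSup_le fun hX => iSup_le fun hXp => ?_
    obtain ⟨bs, rfl⟩ := hX
    have hsep := (hpack _).1 hXp
    have hcar : ((latGroup bs : AddSubgroup (Fin 8 → ℝ)) : Set (Fin 8 → ℝ)) =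
        {x | ∃ c : Fin 8 → ℤ, x = ∑ i, (c i : ℝ) • bs i} := rfl
    rw [← hcar] at hsep ⊢
    obtain ⟨F, hFm, hFb, hFd, hFv⟩ := hL ε hεpos hεε0 (latGroup bs) (by
      intro v hv hv0
      have := hsep v hv 0 (latGroup bs).zero_mem hv0
      simpa using this)
    have hpos1 : 0 < 1 - G' * ε := lt_trans hsd0 hsd
    have hF0 : volume F ≠ 0 := by
      intro h0
      rw [h0] at hFv
      have := ENNReal.ofReal_pos.2 hpos1
      exact absurd hFv (not_le.2 this)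
    refine (V2 V1 8 _ F (latGroup bs) (by omega) hcomp hFm hFb hF0 hFd).trans ?_
    exact ENNReal.div_le_div_left hFv _
  -- the non-lattice packing
  set τ : (Fin 8 → ℤ) → (Fin 8 → ℝ) := fun Z l => s * tau8 kelf Z l with hτ
  have hsepτ : ∀ Z Z' : Fin 8 → ℤ, Z ≠ Z' → SepG (Pf δ) ε (τ Z - τ Z') := by
    intro Z Z' hZ
    exact sep8 hPEN hKEL hδ0 (by linarith) hεpos hεδ hs1 Z Z' hZ
  have hinj : Function.Injective τ := by
    intro Z Z' h
    by_contra hne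
    obtain ⟨k, hk⟩ := hsepτ Z Z' hne
    rw [h, sub_self] at hk
    unfold NkG at hk
    rw [hpen.zero k] at hk
    simp at hk
    linarith
  have hpk : IsPacking (bodyG (Pf δ) ε) (range τ) := by
    rw [hpack]
    rintro _ ⟨Z, rfl⟩ _ ⟨Z', rfl⟩ hne
    exact hsepτ Z Z' (fun h => hne (by rw [h]))
  have hT1 : volume (bodyG (Pf δ) ε) / ENNReal.ofReal (s ^ 8) ≤ deltaT (bodyG (Pf δ) ε) := by
    have h1 := V3 V1 8 (bodyG (Pf δ) ε) s 1 τ (by omega) hcomp hconv hspos (by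
      intro Z i
      have : τ Z i - s * Z i = s * (if kelf (par8 Z) i then 1 / 2 else 0) := by
        simp only [hτ, tau8]; ring
      rw [this, abs_mul, abs_of_pos hspos]
      have h2 : |(if kelf (par8 Z) i then (1 / 2 : ℝ) else 0)| ≤ 1 := by
        split_ifs <;> norm_num
      calc s * |(if kelf (par8 Z) i then (1 / 2 : ℝ) else 0)| ≤ 1 * 1 := by gcongr
        _ = 1 := by norm_num) hinj hpk
    refine h1.trans ?_
    unfold deltaT
    exact le_iSup_of_le (range τ) (le_iSup_of_le hpk le_rfl)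
  refine lt_of_le_of_lt hL1 (lt_of_lt_of_le ?_ hT1)
  have hlt : ENNReal.ofReal (s ^ 8) < ENNReal.ofReal (1 - G' * ε) := by
    rw [ENNReal.ofReal_lt_ofReal_iff (lt_trans hsd0 hsd)]
    exact hsd
  exact ENNReal.div_lt_div_left hvol0 hvolt hlt

end Pool.Agent.K3h26.KP
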