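import Pool.Agent.K3h26.KP.Fin

/-!
# MP_c4753b_co, Q1: a convex body with `δ_L(K) < δ_T(K)` in dimension eight

There is a convex body `K ⊂ ℝ^8`, symmetric about the origin, whose densest translative packing is
strictly denser than its densest lattice packing. So the smallest dimension of the question is at
most `8`.

The definitions (in `Pool.Agent.H947R2.TP.Defs`) are the ones of the problem:

* `eball d R` is the Euclidean ball of radius `R` centred at the origin of `ℝ^d = Fin d → ℝ`,
* `tr x K = x + K`,
* `IsPacking K X`: the translates `x + K`, `x ∈ X`, have pairwise disjoint interiors,
* `density K X = limsup_{R → ∞} vol (B_R ∩ ⋃_{x ∈ X} (x + K)) / vol B_R`,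
* `IsLattice X`: `X` is the set of all integer combinations of a basis of `ℝ^d`,
* `deltaT K`, `deltaL K`: the suprema of the densities over all packings, respectively over all
  packings by a lattice of translation vectors.

The body is `{x : |2 x_k| + ε Φ_k(2 x) ≤ 1 for all k}` with a small `ε > 0` and convex penalties
`Φ_k` adapted to the contacts of an eight-dimensional cube tiling without facet sharing (a
counterexample to Keller's conjecture). The lattice packings are bounded by a first order argument
at the lattice tilings by cubes, an elimination of the coordinates in the order of Hajós' theorem,
convexity, a table checked by the kernel, and a relation between the first three directions.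
-/

set_option autoImplicit false

namespace Pool.Agent.K3h26.KP.DimensionEight

open H947TP

/-- **Theorem.** There is a convex body `K` in `ℝ^8` (compact, convex, with nonempty interior),
symmetric about the origin, with `δ_L(K) < δ_T(K)`. -/
theorem result : ∃ K : Set (Fin 8 → ℝ), Convex ℝ K ∧ IsCompact K ∧
    (interior K).Nonempty ∧ (∀ x ∈ K, -x ∈ K) ∧ deltaL K < deltaT K :=
  Pool.Agent.K3h26.KP.main8

end Pool.Agent.K3h26.KP.DimensionEight
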