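import Pool.Agent.K3h26.KP.Top
import Pool.Agent.K3h26.KP.Core
import Pool.Agent.K3h90.KP.Cvx
import Pool.Agent.K3h58.KP.Means
import Pool.Agent.K3h94.KP.Pen
import Pool.Agent.K3h94.KP.Tri
import Pool.Agent.K3h12.KP.Kel

/-!
# The bound for the lattice tilings and the main theorem in dimension eight (MP_c4753b_co)
-/

set_option autoImplicit false

open MeasureTheory Filter Topology Set
open scoped ENNReal NNReal

namespace Pool.Agent.K3h26.KP

open H947TP

/-- the sum of the mean penalties (without the excess) of a lattice tiling of `ℝ^8` -/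
theorem lat_gg (hCVX : S_CVX) (hSTEP : S_STEP) (hEV : S_EV) (hTRI : S_TRI)
    (L : AddSubgroup (Fin 8 → ℝ)) (hL : IsTile L) :
    1600000 * ∑ k, Ex L k (fun u => gg (mm id k u)) ≤ 6398354 := by
  obtain ⟨p, hp⟩ := allB5 8 L (by norm_num) hL
  have hL1 := C1 7 L p hL hp
  obtain ⟨θ, hθ, hex⟩ := hSTEP 7 L p hL hp
  obtain ⟨q, hq⟩ := allB5 7 (L.map (remMap p)) (by norm_num) hL1
  have hL2 := C1 6 _ q hL1 hq
  obtain ⟨θ', hθ', hex'⟩ := hSTEP 6 _ q hL1 hq
  obtain ⟨r, hr⟩ := allB5 6 ((L.map (remMap p)).map (remMap q)) (by norm_num) hL2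
  have hL3 := C1 5 _ r hL2 hr
  obtain ⟨θ'', hθ'', hex''⟩ := hSTEP 5 _ r hL2 hr
  have hpq : p ≠ p.succAbove q := (Fin.succAbove_ne p q).symm
  have hpr : p ≠ p.succAbove (q.succAbove r) := (Fin.succAbove_ne p _).symm
  have hqr : p.succAbove q ≠ p.succAbove (q.succAbove r) := fun h =>
    (Fin.succAbove_ne q r).symm (Fin.succAbove_right_injective h)
  have htop := pot_top p (p.succAbove q) (p.succAbove (q.succAbove r)) hpq hpr hqr
  -- masks
  have m1 : (0 ||| 2 ^ (((id : Fin 8 → Fin 8) p : Fin 8) : ℕ)) = 2 ^ (p : ℕ) := Nat.zero_or _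
  have bit1 : (0 : ℕ).testBit ((id : Fin 8 → Fin 8) p) = false := Nat.zero_testBit _
  have bit2 : (2 ^ (p : ℕ)).testBit
      ((((id : Fin 8 → Fin 8) ∘ p.succAbove) q : Fin 8) : ℕ) = false := by
    rw [← Bool.not_eq_true, Nat.testBit_two_pow]
    intro h
    exact hpq (Fin.ext (of_decide_eq_true h))
  have bit3 : (2 ^ (p : ℕ) ||| 2 ^ ((p.succAbove q : Fin 8) : ℕ)).testBit
      (((((id : Fin 8 → Fin 8) ∘ p.succAbove) ∘ q.succAbove) r : Fin 8) : ℕ) = false := by
    rw [← Bool.not_eq_true, testBit_ins, Nat.testBit_two_pow]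
    rintro (h | h)
    · exact hpr (Fin.ext (of_decide_eq_true h))
    · exact hqr h.symm
  -- elimination of `p`
  have st1 : ∀ k : Fin 7, ∃ β' : (Fin 4 → ℝ) → ℝ, Nice β' ∧
      GB β' (Tf (p.succAbove k) (2 ^ (p : ℕ))) (df (p.succAbove k) (2 ^ (p : ℕ))) ∧
      Ex L (p.succAbove k) (fun u => gg (mm id (p.succAbove k) u)) ≤
        Ex (L.map (remMap p)) k
          (fun w => β' (mm ((id : Fin 8 → Fin 8) ∘ p.succAbove) (p.succAbove k) w)) := by
    intro k
    have h := exone hCVX hEV L p hL1 θ hθ hex (id : Fin 8 → Fin 8) 0 bit1 k (p.succAbove k) gg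
      gg_nice (gg_GB _)
    rw [m1] at h
    exact h
  choose β1 n1 g1 le1 using st1
  -- elimination of `q`
  have st2 : ∀ k : Fin 6, ∃ β' : (Fin 4 → ℝ) → ℝ, Nice β' ∧
      GB β' (Tf (p.succAbove (q.succAbove k)) (2 ^ (p : ℕ) ||| 2 ^ ((p.succAbove q : Fin 8) : ℕ)))
        (df (p.succAbove (q.succAbove k)) (2 ^ (p : ℕ) ||| 2 ^ ((p.succAbove q : Fin 8) : ℕ))) ∧
      Ex L (p.succAbove (q.succAbove k)) (fun u => gg (mm id (p.succAbove (q.succAbove k)) u)) ≤
        Ex ((L.map (remMap p)).map (remMap q)) k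
          (fun w => β' (mm (((id : Fin 8 → Fin 8) ∘ p.succAbove) ∘ q.succAbove)
            (p.succAbove (q.succAbove k)) w)) := by
    intro k
    obtain ⟨β', h1, h2, h3⟩ := exone hCVX hEV (L.map (remMap p)) q hL2 θ' hθ' hex'
      ((id : Fin 8 → Fin 8) ∘ p.succAbove) (2 ^ (p : ℕ)) bit2 k (p.succAbove (q.succAbove k))
      (β1 (q.succAbove k)) (n1 _) (g1 _)
    exact ⟨β', h1, h2, (le1 (q.succAbove k)).trans h3⟩
  choose β2 n2 g2 le2 using st2
  -- elimination of `r`
  have st3 : ∀ k : Fin 5, ∃ β' : (Fin 4 → ℝ) → ℝ, Nice β' ∧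
      GB β' (Tf (p.succAbove (q.succAbove (r.succAbove k)))
          ((2 ^ (p : ℕ) ||| 2 ^ ((p.succAbove q : Fin 8) : ℕ)) |||
            2 ^ ((p.succAbove (q.succAbove r) : Fin 8) : ℕ)))
        (df (p.succAbove (q.succAbove (r.succAbove k)))
          ((2 ^ (p : ℕ) ||| 2 ^ ((p.succAbove q : Fin 8) : ℕ)) |||
            2 ^ ((p.succAbove (q.succAbove r) : Fin 8) : ℕ))) ∧
      Ex L (p.succAbove (q.succAbove (r.succAbove k)))
        (fun u => gg (mm id (p.succAbove (q.succAbove (r.succAbove k))) u)) ≤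
        Ex (((L.map (remMap p)).map (remMap q)).map (remMap r)) k
          (fun w => β' (mm ((((id : Fin 8 → Fin 8) ∘ p.succAbove) ∘ q.succAbove) ∘ r.succAbove)
            (p.succAbove (q.succAbove (r.succAbove k))) w)) := by
    intro k
    obtain ⟨β', h1, h2, h3⟩ := exone hCVX hEV ((L.map (remMap p)).map (remMap q)) r hL3 θ'' hθ''
      hex'' (((id : Fin 8 → Fin 8) ∘ p.succAbove) ∘ q.succAbove)
      (2 ^ (p : ℕ) ||| 2 ^ ((p.succAbove q : Fin 8) : ℕ)) bit3 k
      (p.succAbove (q.succAbove (r.succAbove k))) (β2 (r.succAbove k)) (n2 _) (g2 _)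
    exact ⟨β', h1, h2, (le2 (r.succAbove k)).trans h3⟩
  choose β3 n3 g3 le3 using st3
  -- the remaining five directions
  have hrest := ind hCVX hSTEP hEV 5 _ hL3
    ((((id : Fin 8 → Fin 8) ∘ p.succAbove) ∘ q.succAbove) ∘ r.succAbove)
    (((Function.injective_id.comp Fin.succAbove_right_injective).comp
      Fin.succAbove_right_injective).comp Fin.succAbove_right_injective)
    ((2 ^ (p : ℕ) ||| 2 ^ ((p.succAbove q : Fin 8) : ℕ)) |||
      2 ^ ((p.succAbove (q.succAbove r) : Fin 8) : ℕ))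
    (by
      have h : ∀ x : Fin 8, (2 : ℕ) ^ (x : ℕ) < 2 ^ 8 := fun x =>
        Nat.pow_lt_pow_right (by norm_num) x.2
      exact Nat.or_lt_two_pow (n := 8) (Nat.or_lt_two_pow (h _) (h _)) (h _))
    (by
      intro l
      rw [testBit_ins, testBit_ins, Nat.testBit_two_pow, decide_eq_true_iff]
      constructor
      · rintro ((h | h) | h) i hc
        · exact Fin.succAbove_ne p (q.succAbove (r.succAbove i)) (hc.trans (Fin.ext h).symm)
        · rw [h] at hc
          exact Fin.succAbove_ne q _ (Fin.succAbove_right_injective hc)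
        · rw [h] at hc
          exact Fin.succAbove_ne r _
            (Fin.succAbove_right_injective (Fin.succAbove_right_injective hc))
      · intro h
        by_cases h1 : l = p
        · exact Or.inl (Or.inl (by rw [h1]))
        · rcases Fin.eq_self_or_eq_succAbove p l with hc | ⟨l1, hl1⟩
          · exact absurd hc h1
          rcases Fin.eq_self_or_eq_succAbove q l1 with hc | ⟨l2, hl2⟩
          · exact Or.inl (Or.inr (by rw [hl1, hc]))
          rcases Fin.eq_self_or_eq_succAbove r l2 with hc | ⟨l3, hl3⟩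
          · exact Or.inr (by rw [hl1, hl2, hc])
          · exact absurd (by rw [hl1, hl2, hl3]; rfl) (h l3)) β3
    (fun k => ⟨n3 k, g3 k⟩)
  have hsum : 1600000 * ∑ k : Fin 5, Ex L (p.succAbove (q.succAbove (r.succAbove k)))
        (fun u => gg (mm id (p.succAbove (q.succAbove (r.succAbove k))) u)) ≤
      hh ((2 ^ (p : ℕ) ||| 2 ^ ((p.succAbove q : Fin 8) : ℕ)) |||
        2 ^ ((p.succAbove (q.succAbove r) : Fin 8) : ℕ)) := by
    refine le_trans ?_ hrest
    exact mul_le_mul_of_nonneg_left (Finset.sum_le_sum fun k _ => le3 k) (by norm_num)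
  -- the direction `p`
  have hP : Ex L p (fun u => gg (mm id p u)) = 0 := by
    rw [((hEV 8 L hL).1 p hp _).2]
    have e0 : mm (id : Fin 8 → Fin 8) p (Pi.single p (1 : ℝ)) = fun _ => 0 :=
      mm_single (id : Fin 8 → Fin 8) p
    rw [e0]
    unfold gg
    simp
  rw [Fin.sum_univ_succAbove _ p, Fin.sum_univ_succAbove _ q, Fin.sum_univ_succAbove _ r, hP]
  by_cases hpps : pps p (p.succAbove q) (p.succAbove (q.succAbove r))
  · have h1 := triple hEV hTRI L hL p hp hL1 θ hθ hex q hq hL2 θ' hθ' hex' r hr hpps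
    rw [if_pos hpps] at htop
    have h2 : (1511112 : ℝ) + hh ((2 ^ (p : ℕ) ||| 2 ^ ((p.succAbove q : Fin 8) : ℕ)) |||
        2 ^ ((p.succAbove (q.succAbove r) : Fin 8) : ℕ)) ≤ 6398354 := by exact_mod_cast htop
    linarith
  · rw [if_neg hpps] at htop
    have hQ : 1600000 * Ex L (p.succAbove q) (fun u => gg (mm id (p.succAbove q) u)) ≤
        Tf (p.succAbove q) (2 ^ (p : ℕ)) (fun _ => 0) := by
      refine le_trans (mul_le_mul_of_nonneg_left (le1 q) (by norm_num)) ?_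
      rw [((hEV 7 _ hL1).1 q hq _).2]
      have e0 : mm ((id : Fin 8 → Fin 8) ∘ p.succAbove) (p.succAbove q) (Pi.single q (1 : ℝ)) =
          fun _ => 0 := mm_single ((id : Fin 8 → Fin 8) ∘ p.succAbove) q
      rw [e0]
      exact GB_zero (g1 q)
    have hR : 1600000 * Ex L (p.succAbove (q.succAbove r))
        (fun u => gg (mm id (p.succAbove (q.succAbove r)) u)) ≤
        Tf (p.succAbove (q.succAbove r)) (2 ^ (p : ℕ) ||| 2 ^ ((p.succAbove q : Fin 8) : ℕ))
          (fun _ => 0) := by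
      refine le_trans (mul_le_mul_of_nonneg_left (le2 r) (by norm_num)) ?_
      rw [((hEV 6 _ hL2).1 r hr _).2]
      have e0 : mm (((id : Fin 8 → Fin 8) ∘ p.succAbove) ∘ q.succAbove)
          (p.succAbove (q.succAbove r)) (Pi.single r (1 : ℝ)) =
          fun _ => 0 := mm_single (((id : Fin 8 → Fin 8) ∘ p.succAbove) ∘ q.succAbove) r
      rw [e0]
      exact GB_zero (g2 r)
    have h2 : (Tf (p.succAbove q) (2 ^ (p : ℕ)) (fun _ => 0) : ℝ) +
        Tf (p.succAbove (q.succAbove r)) (2 ^ (p : ℕ) ||| 2 ^ ((p.succAbove q : Fin 8) : ℕ))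
          (fun _ => 0) + hh ((2 ^ (p : ℕ) ||| 2 ^ ((p.succAbove q : Fin 8) : ℕ)) |||
        2 ^ ((p.succAbove (q.succAbove r) : Fin 8) : ℕ)) ≤ 6398354 := by exact_mod_cast htop
    linarith

theorem lb8 (hCVX : S_CVX) (hSTEP : S_STEP) (hEV : S_EV) (hTRI : S_TRI) (hPEN : S_PEN)
    (hEXC : S_EXC) : S_LB := by
  refine ⟨1 / 100000, 6398354 / 1600000 + 64 / 100000, by norm_num, by norm_num, by norm_num,
    by norm_num, ?_⟩
  intro L hL
  obtain ⟨-, -, -, hle, -⟩ := hPEN (1 / 100000) (by norm_num) (by norm_num)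
  have h1 := lat_gg hCVX hSTEP hEV hTRI L hL
  unfold SSG
  have h2 : ∀ k : Fin 8, Ex L k (Pf (1 / 100000) k) ≤
      Ex L k (fun u => gg (mm id k u)) + 8 / 100000 := by
    intro k
    refine ((hEV 8 L hL).2.1 k _ _ (fun u _ => hle k u)).trans ?_
    rw [(hEV 8 L hL).2.2.1, (hEV 8 L hL).2.2.2]
    have h3 : ∑ l ∈ Finset.univ.erase k,
        Ex L k (fun u => max 0 ((|u l| - (1 - 1 / 100000)) / (1 / 100000))) ≤
        ∑ l ∈ Finset.univ.erase k, (1 / 100000 : ℝ) :=
      Finset.sum_le_sum fun l hl =>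
        hEXC 8 L (1 / 100000) k l hL (by norm_num) (by norm_num) (Finset.ne_of_mem_erase hl)
    rw [Finset.sum_const, Finset.card_erase_of_mem (Finset.mem_univ k), Finset.card_univ,
      Fintype.card_fin, nsmul_eq_mul] at h3
    norm_num at h3 ⊢
    linarith
  have h4 := Finset.sum_le_sum (fun k (_ : k ∈ (Finset.univ : Finset (Fin 8))) => h2 k)
  rw [Finset.sum_add_distrib, Finset.sum_const, Finset.card_univ, Fintype.card_fin,
    nsmul_eq_mul] at h4
  norm_num at h4 ⊢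
  linarith

/-- **Main theorem**: a convex body in `ℝ^8` with `δ_L < δ_T`. -/
theorem main8 : ∃ K : Set (Fin 8 → ℝ), Convex ℝ K ∧ IsCompact K ∧
      (interior K).Nonempty ∧ (∀ x ∈ K, -x ∈ K) ∧ deltaL K < deltaT K :=
  core8 Pool.Agent.K3h94.KP.t_PEN Pool.Agent.K3h12.KP.t_KEL
    (lb8 Pool.Agent.K3h90.KP.t_CVX Pool.Agent.K3h58.KP.t_STEP Pool.Agent.K3h58.KP.t_EV
      Pool.Agent.K3h94.KP.t_TRI Pool.Agent.K3h94.KP.t_PEN Pool.Agent.K3h58.KP.t_EXC)

end Pool.Agent.K3h26.KP
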