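import Pool.Agent.K3h26.KP.Stm

/-!
# The limit argument for general penalties (MP_c4753b_co)

The proofs are those of the starting tree (`P2`, `P3`, `L1`, `L2`, `L4`, `L6`, `L7`), with the
penalty replaced by any family `Φ` with the properties `Pen`.
-/

set_option autoImplicit false

open MeasureTheory Filter Topology Set
open scoped ENNReal

namespace Pool.Agent.K3h26.KP

open H947TP

theorem P2G {D : ℕ} {Φ : Fin D → (Fin D → ℝ) → ℝ} (hΦ : Pen Φ) {ε : ℝ} (hε : 0 < ε) :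
    Convex ℝ (bodyG Φ ε) ∧ IsCompact (bodyG Φ ε) ∧ (interior (bodyG Φ ε)).Nonempty ∧
    (∀ x ∈ bodyG Φ ε, -x ∈ bodyG Φ ε) ∧ volume (bodyG Φ ε) ≠ 0 ∧ volume (bodyG Φ ε) ≠ ⊤ := by
  have hcont : ∀ k, Continuous (fun x : Fin D → ℝ => NkG Φ ε k (fun i => 2 * x i)) := by
    intro k
    have hc := hΦ.cont k
    have h2 : Continuous (fun x : Fin D → ℝ => (fun i => 2 * x i : Fin D → ℝ)) :=
      continuous_pi fun i => continuous_const.mul (continuous_apply i)
    unfold NkG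
    exact ((continuous_const.mul (continuous_apply k)).abs).add
      (continuous_const.mul (hc.comp h2))
  have hbd : ∀ x ∈ bodyG Φ ε, ∀ k, |2 * x k| ≤ 1 := by
    intro x hx k
    have h := hx k
    unfold NkG at h
    have h0 := hΦ.nonneg k (fun i => 2 * x i)
    have := mul_nonneg hε.le h0
    linarith
  have hclosed : IsClosed (bodyG Φ ε) := by
    have : bodyG Φ ε = ⋂ k, {x : Fin D → ℝ | NkG Φ ε k (fun i => 2 * x i) ≤ 1} := by
      ext x
      simp only [bodyG, mem_iInter]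
      rfl
    rw [this]
    exact isClosed_iInter fun k => isClosed_le (hcont k) continuous_const
  have hcomp : IsCompact (bodyG Φ ε) := by
    refine Metric.isCompact_of_isClosed_isBounded hclosed ?_
    refine Metric.isBounded_closedBall.subset (s := bodyG Φ ε) (t := Metric.closedBall 0 1) ?_
    intro x hx
    rw [mem_closedBall_zero_iff, pi_norm_le_iff_of_nonneg zero_le_one]
    intro k
    have := hbd x hx k
    rw [abs_mul, abs_two] at this
    rw [Real.norm_eq_abs]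
    have h0 := abs_nonneg (x k)
    linarith
  have hint : (interior (bodyG Φ ε)).Nonempty := by
    refine ⟨0, ?_⟩
    have hopen : IsOpen {x : Fin D → ℝ | ∀ k, NkG Φ ε k (fun i => 2 * x i) < 1} := by
      have : {x : Fin D → ℝ | ∀ k, NkG Φ ε k (fun i => 2 * x i) < 1} =
          ⋂ k, {x : Fin D → ℝ | NkG Φ ε k (fun i => 2 * x i) < 1} := by
        ext x
        simp only [mem_iInter]
        rfl
      rw [this]
      exact isOpen_iInter_of_finite fun k => isOpen_lt (hcont k) continuous_const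
    have hsub : {x : Fin D → ℝ | ∀ k, NkG Φ ε k (fun i => 2 * x i) < 1} ⊆ bodyG Φ ε :=
      fun x hx k => le_of_lt (hx k)
    refine interior_maximal hsub hopen ?_
    intro k
    have h0 := hΦ.zero k
    have e : (fun i => 2 * (0 : Fin D → ℝ) i) = (0 : Fin D → ℝ) := by
      funext i
      simp
    rw [e]
    unfold NkG
    rw [h0]
    simp
  refine ⟨?_, hcomp, hint, ?_, ?_, hcomp.measure_lt_top.ne⟩
  · intro x hx y hy a c ha hc hac k
    have hcv := hΦ.conv k
    have h2 := hcv.2 (mem_univ (fun i => 2 * x i)) (mem_univ (fun i => 2 * y i)) ha hc hac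
    have hx' := hx k
    have hy' := hy k
    rw [P2_scale]
    unfold NkG at hx' hy' ⊢
    have h3 : |(a • (fun i => 2 * x i) + c • (fun i => 2 * y i) : Fin D → ℝ) k| ≤
        a * |2 * x k| + c * |2 * y k| := by
      simp only [Pi.add_apply, Pi.smul_apply, smul_eq_mul]
      refine (abs_add_le _ _).trans ?_
      rw [abs_mul a, abs_mul c, abs_of_nonneg ha, abs_of_nonneg hc]
    simp only [smul_eq_mul] at h2
    have h4 := mul_le_mul_of_nonneg_left h2 hε.le
    have h5 := mul_le_mul_of_nonneg_left hx' ha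
    have h6 := mul_le_mul_of_nonneg_left hy' hc
    nlinarith
  · intro x hx k
    have hev := hΦ.even k
    have e : (fun i => 2 * (-x) i) = -(fun i => 2 * x i) := by
      funext i
      simp only [Pi.neg_apply]
      ring
    have h := hx k
    rw [e]
    unfold NkG at h ⊢
    rw [hev, Pi.neg_apply, abs_neg]
    exact h
  · have h := isOpen_interior.measure_pos volume hint
    exact (lt_of_lt_of_le h (measure_mono interior_subset)).ne'



namespace P3auxG

variable {D : ℕ} {Φ : Fin D → (Fin D → ℝ) → ℝ} {ε : ℝ}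

theorem Nk_conv {k : Fin D} (hc : ConvexOn ℝ univ (Φ k)) (hε : 0 < ε) {a c : ℝ}
    (ha : 0 ≤ a) (hc' : 0 ≤ c) (hac : a + c = 1) (x y : Fin D → ℝ) :
    NkG Φ ε k (a • x + c • y) ≤ a * NkG Φ ε k x + c * NkG Φ ε k y := by
  unfold NkG
  have h1 : |(a • x + c • y) k| ≤ a * |x k| + c * |y k| := by
    simp only [Pi.add_apply, Pi.smul_apply, smul_eq_mul]
    calc |a * x k + c * y k| ≤ |a * x k| + |c * y k| := abs_add_le _ _
      _ = a * |x k| + c * |y k| := by rw [abs_mul, abs_mul, abs_of_nonneg ha, abs_of_nonneg hc']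
  have h2 := hc.2 (mem_univ x) (mem_univ y) ha hc' hac
  simp only [smul_eq_mul] at h2
  nlinarith

theorem Nk_even {k : Fin D} (he : ∀ w, Φ k (-w) = Φ k w) (w : Fin D → ℝ) :
    NkG Φ ε k (-w) = NkG Φ ε k w := by
  unfold NkG
  rw [he, Pi.neg_apply, abs_neg]

theorem Nk_zero {k : Fin D} (h0 : Φ k 0 = 0) : NkG Φ ε k 0 = 0 := by
  unfold NkG
  rw [h0]; simp

theorem Nk_cont {k : Fin D} (hc : Continuous (Φ k)) : Continuous (NkG Φ ε k) := by
  unfold NkG
  exact ((continuous_apply k).abs).add (continuous_const.mul hc)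

theorem two_mul_eq (x : Fin D → ℝ) : (fun i => 2 * x i) = (2 : ℝ) • x := by
  funext i
  simp

theorem interior_body (hΦ : Pen Φ) (hε : 0 < ε) : interior (bodyG Φ ε) = {x | ∀ k, NkG Φ ε k ((2 : ℝ) • x) < 1} := by
  apply Subset.antisymm
  · intro y hy k
    have h0 := hΦ.zero k
    have hconv := hΦ.conv k
    have hy' := mem_interior_iff_mem_nhds.mp hy
    have ht : Tendsto (fun t : ℝ => (1 + t) • y) (𝓝 0) (𝓝 y) := by
      have : Continuous (fun t : ℝ => (1 + t) • y) := by fun_prop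
      have h := this.tendsto 0
      simpa using h
    have hev := ht.eventually hy'
    have hev2 : ∀ᶠ t in 𝓝[>] (0 : ℝ), (1 + t) • y ∈ bodyG Φ ε ∧ 0 < t := by
      refine (hev.filter_mono nhdsWithin_le_nhds).and ?_
      exact self_mem_nhdsWithin
    obtain ⟨t, ht1, ht0⟩ := hev2.exists
    have hk := ht1 k
    rw [two_mul_eq] at hk
    have hpos : 0 < 1 + t := by linarith
    have heq : (2 : ℝ) • y = (1 / (1 + t)) • ((2 : ℝ) • ((1 + t) • y)) + (t / (1 + t)) • 0 := by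
      rw [smul_zero, add_zero, smul_smul, smul_smul]
      congr 1
      field_simp
    have hle := Nk_conv (ε := ε) hconv hε (a := 1 / (1 + t)) (c := t / (1 + t)) (by positivity)
      (by positivity) (by field_simp) ((2 : ℝ) • ((1 + t) • y)) 0
    rw [← heq, Nk_zero h0, mul_zero, add_zero] at hle
    have hlt : 1 / (1 + t) < 1 := by
      rw [div_lt_one hpos]; linarith
    have hnn : 1 / (1 + t) * NkG Φ ε k ((2 : ℝ) • ((1 + t) • y)) ≤ 1 / (1 + t) * 1 :=
      mul_le_mul_of_nonneg_left hk (by positivity)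
    linarith
  · apply interior_maximal
    · intro x hx k
      rw [two_mul_eq]
      exact (hx k).le
    · have : {x : Fin D → ℝ | ∀ k, NkG Φ ε k ((2 : ℝ) • x) < 1}
          = ⋂ k, {x : Fin D → ℝ | NkG Φ ε k ((2 : ℝ) • x) < 1} := by
        ext x; simp
      rw [this]
      apply isOpen_iInter_of_finite
      intro k
      have hcont := hΦ.cont k
      have h2 : Continuous (fun x : Fin D → ℝ => (2 : ℝ) • x) := continuous_const_smul 2
      exact isOpen_lt ((Nk_cont hcont).comp h2) continuous_const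

theorem mem_interior_tr {d : ℕ} (x z : Fin d → ℝ) (K : Set (Fin d → ℝ)) :
    z ∈ interior (tr x K) ↔ z - x ∈ interior K := by
  have h : tr x K = (Homeomorph.addLeft x) '' K := rfl
  rw [h, ← (Homeomorph.addLeft x).image_interior]
  constructor
  · rintro ⟨w, hw, rfl⟩
    simpa using hw
  · intro hz
    exact ⟨z - x, hz, by simp⟩

end P3auxG

open P3auxG in
theorem P3G {D : ℕ} {Φ : Fin D → (Fin D → ℝ) → ℝ} (hΦ : Pen Φ) {ε : ℝ} (hε : 0 < ε)
    (X : Set (Fin D → ℝ)) :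
    IsPacking (bodyG Φ ε) X ↔ ∀ x ∈ X, ∀ y ∈ X, x ≠ y → SepG Φ ε (x - y) := by
  have hint := interior_body hΦ hε
  have hev : ∀ k w, NkG Φ ε k (-w) = NkG Φ ε k w := by
    intro k w
    exact Nk_even (hΦ.even k) w
  constructor
  · intro hpack x hx y hy hxy
    by_contra hsep
    unfold SepG at hsep
    push Not at hsep
    have hd := hpack x hx y hy hxy
    rw [Set.disjoint_left] at hd
    refine hd (a := (1 / 2 : ℝ) • (x + y)) ?_ ?_
    · rw [mem_interior_tr, hint]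
      intro k
      have : (2 : ℝ) • ((1 / 2 : ℝ) • (x + y) - x) = -(x - y) := by
        funext i
        simp only [Pi.smul_apply, Pi.sub_apply, Pi.add_apply, Pi.neg_apply, smul_eq_mul]
        ring
      rw [this, hev]
      exact hsep k
    · rw [mem_interior_tr, hint]
      intro k
      have : (2 : ℝ) • ((1 / 2 : ℝ) • (x + y) - y) = x - y := by
        funext i
        simp only [Pi.smul_apply, Pi.sub_apply, Pi.add_apply, smul_eq_mul]
        ring
      rw [this]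
      exact hsep k
  · intro hall x hx y hy hxy
    rw [Set.disjoint_left]
    intro z hzx hzy
    rw [mem_interior_tr, hint] at hzx hzy
    obtain ⟨k, hk⟩ := hall x hx y hy hxy
    have hconv := hΦ.conv k
    have heq : x - y = (1 / 2 : ℝ) • ((2 : ℝ) • (z - y)) + (1 / 2 : ℝ) • (-((2 : ℝ) • (z - x))) := by
      funext i
      simp only [Pi.smul_apply, Pi.sub_apply, Pi.add_apply, Pi.neg_apply, smul_eq_mul]
      ring
    have hle := Nk_conv (ε := ε) hconv hε (a := 1 / 2) (c := 1 / 2) (by norm_num) (by norm_num)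
      (by norm_num) ((2 : ℝ) • (z - y)) (-((2 : ℝ) • (z - x)))
    rw [← heq, hev] at hle
    have h1 := hzx k
    have h2 := hzy k
    linarith

theorem L1G {D : ℕ} {Φ : Fin D → (Fin D → ℝ) → ℝ} (hΦ : Pen Φ) {ε : ℝ}
    (Λ : AddSubgroup (Fin D → ℝ)) (hε : 0 < ε) (hε1 : ε < 1)
    (hsep : ∀ v ∈ Λ, v ≠ 0 → SepG Φ ε v) (P : Set (Fin D → ℝ))
    (hP : P = {v | v ∈ Λ ∧ (∀ l, |v l| < 1) ∧ ∃ k, 0 < v k ∧ 1 ≤ NkG Φ ε k v}) :
    P.Finite ∧ ∃ F : Set (Fin D → ℝ), MeasurableSet F ∧ F ⊆ {x | ∀ i, 0 ≤ x i ∧ x i < 1} ∧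
    {x | ∀ i, 0 ≤ x i ∧ x i < 1 - ε} ⊆ F ∧
    (∀ v ∈ Λ, v ≠ 0 → Disjoint F (tr v F)) ∧
    ENNReal.ofReal (1 - ∑ᶠ v ∈ P, ∏ l, (1 - |v l|)) ≤ volume F := by
  have hΦ1 : ∀ k w, (∀ i, |w i| ≤ 1) → Φ k w ≤ 1 := hΦ.le_one
  have hΦn : ∀ k w, Φ k (-w) = Φ k w := hΦ.even
  have hbig : ∀ k (v : Fin D → ℝ), (∀ l, |v l| ≤ 1) → 1 ≤ NkG Φ ε k v → 1 - ε ≤ |v k| := by
    intro k v hv h
    unfold NkG at h
    have h1 := hΦ1 k v hv
    nlinarith
  have hdisc : ∀ v ∈ Λ, v ≠ 0 → ∃ i, 1 - ε ≤ |v i| := by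
    intro v hv h0
    by_cases h : ∀ l, |v l| ≤ 1
    · obtain ⟨k, hk⟩ := hsep v hv h0
      exact ⟨k, hbig k v h hk⟩
    · push Not at h
      obtain ⟨l, hl⟩ := h
      exact ⟨l, by linarith⟩
  have hfin : P.Finite := by
    refine (L1_finite Λ (by linarith : (0 : ℝ) < 1 - ε) hdisc).subset ?_
    rw [hP]
    rintro v ⟨h1, h2, -⟩
    exact ⟨h1, h2⟩
  have hQ0 : L1Q (0 : Fin D → ℝ) = {x | ∀ i, 0 ≤ x i ∧ x i < 1} := by
    ext x
    rw [L1Q_mem]
    simp
  have htr : ∀ v : Fin D → ℝ, ∀ F : Set (Fin D → ℝ), F ⊆ L1Q 0 → tr v F ⊆ L1Q v := by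
    rintro v F hF _ ⟨y, hy, rfl⟩
    rw [L1Q_mem]
    intro i
    have := (L1Q_mem 0 y).1 (hF hy) i
    simp only [Pi.zero_apply, zero_add] at this
    simp only [Pi.add_apply]
    constructor <;> linarith [this.1, this.2]
  obtain ⟨F, hF⟩ : ∃ F : Set (Fin D → ℝ), F = L1Q 0 \ ⋃ v ∈ P, L1Q v := ⟨_, rfl⟩
  have hFQ : F ⊆ L1Q 0 := by rw [hF]; exact diff_subset
  refine ⟨hfin, F, ?_, ?_, ?_, ?_, ?_⟩
  · rw [hF]
    exact (L1Q_meas 0).diff (hfin.measurableSet_biUnion fun v _ => L1Q_meas v)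
  · rw [← hQ0]; exact hFQ
  · intro x hx
    rw [hF]
    refine ⟨?_, ?_⟩
    · rw [hQ0]
      exact fun i => ⟨(hx i).1, by linarith [(hx i).2]⟩
    · intro hmem
      rw [mem_iUnion₂] at hmem
      obtain ⟨v, hv, hxv⟩ := hmem
      rw [hP] at hv
      obtain ⟨-, h1, k, hk, hk2⟩ := hv
      have h3 := hbig k v (fun l => (h1 l).le) hk2
      rw [abs_of_pos hk] at h3
      have h4 := ((L1Q_mem v x).1 hxv k).1
      linarith [(hx k).2]
  · intro v hv h0
    rw [Set.disjoint_left]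
    rintro x hx ⟨y, hy, hxy⟩
    have hxy' : x = v + y := hxy.symm
    have hxQ := (L1Q_mem 0 x).1 (hFQ hx)
    have hyQ := (L1Q_mem 0 y).1 (hFQ hy)
    simp only [Pi.zero_apply, zero_add] at hxQ hyQ
    have hxi : ∀ l, x l = v l + y l := fun l => by rw [hxy']; rfl
    have hlt : ∀ l, |v l| < 1 := by
      intro l
      have h1 := hxi l
      rw [abs_lt]
      constructor <;> linarith [(hxQ l).1, (hxQ l).2, (hyQ l).1, (hyQ l).2]
    obtain ⟨k, hk⟩ := hsep v hv h0
    have hk2 := hbig k v (fun l => (hlt l).le) hk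
    have hk0 : v k ≠ 0 := by
      intro h
      rw [h, abs_zero] at hk2
      linarith
    rcases lt_or_gt_of_ne hk0 with hneg | hpos
    · have hmem : -v ∈ P := by
        rw [hP]
        refine ⟨Λ.neg_mem hv, fun l => ?_, k, ?_, ?_⟩
        · rw [Pi.neg_apply, abs_neg]; exact hlt l
        · rw [Pi.neg_apply]; linarith
        · unfold NkG at hk ⊢
          rw [Pi.neg_apply, abs_neg, hΦn]
          exact hk
      rw [hF] at hy
      apply hy.2
      rw [mem_iUnion₂]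
      refine ⟨-v, hmem, ?_⟩
      rw [L1Q_mem]
      intro i
      have h1 := hxi i
      rw [Pi.neg_apply]
      constructor <;> linarith [(hxQ i).1, (hxQ i).2]
    · have hmem : v ∈ P := by
        rw [hP]
        exact ⟨hv, hlt, k, hpos, hk⟩
      rw [hF] at hx
      apply hx.2
      rw [mem_iUnion₂]
      refine ⟨v, hmem, ?_⟩
      rw [L1Q_mem]
      intro i
      have h1 := hxi i
      constructor <;> linarith [(hyQ i).1, (hyQ i).2]
  · have e1 : F = L1Q 0 \ ⋃ v ∈ hfin.toFinset, (L1Q 0 ∩ L1Q v) := by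
      rw [hF]
      ext x
      simp only [mem_diff, mem_iUnion₂, Set.Finite.mem_toFinset, mem_inter_iff, not_exists]
      constructor
      · rintro ⟨h1, h2⟩
        exact ⟨h1, fun v hv h3 => h2 v hv h3.2⟩
      · rintro ⟨h1, h2⟩
        exact ⟨h1, fun v hv h3 => h2 v hv ⟨h1, h3⟩⟩
    have hnn : ∀ v ∈ hfin.toFinset, 0 ≤ ∏ l, (1 - |v l|) := by
      intro v hv
      rw [Set.Finite.mem_toFinset, hP] at hv
      exact Finset.prod_nonneg fun l _ => by linarith [hv.2.1 l]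
    have h1 : volume (⋃ v ∈ hfin.toFinset, (L1Q (0 : Fin D → ℝ) ∩ L1Q v)) ≤
        ENNReal.ofReal (∑ v ∈ hfin.toFinset, ∏ l, (1 - |v l|)) := by
      refine (measure_biUnion_finset_le _ _).trans ?_
      rw [ENNReal.ofReal_sum_of_nonneg hnn]
      refine Finset.sum_le_sum fun v hv => ?_
      rw [Set.Finite.mem_toFinset, hP] at hv
      rw [L1_inter v hv.2.1]
    rw [finsum_mem_eq_finite_toFinset_sum _ hfin,
      ENNReal.ofReal_sub _ (Finset.sum_nonneg hnn), ENNReal.ofReal_one, e1]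
    calc 1 - ENNReal.ofReal (∑ v ∈ hfin.toFinset, ∏ l, (1 - |v l|))
        ≤ volume (L1Q (0 : Fin D → ℝ)) -
          volume (⋃ v ∈ hfin.toFinset, (L1Q (0 : Fin D → ℝ) ∩ L1Q v)) := by
          rw [L1Q_vol]
          exact tsub_le_tsub_left h1 _
      _ ≤ _ := le_measure_diff



theorem L2G {D : ℕ} {Φ : Fin D → (Fin D → ℝ) → ℝ} (hΦ : Pen Φ) (ε : ℕ → ℝ)
    (Λ : ℕ → AddSubgroup (Fin D → ℝ)) (U : Ultrafilter ℕ)
    (hε : Tendsto ε U (𝓝 0)) (hsep : ∀ m, ∀ v ∈ Λ m, v ≠ 0 → SepG Φ (ε m) v) :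
    ∀ v ∈ Lim U Λ, v ≠ 0 → ∃ l, 1 ≤ |v l| := by
  intro v hv hv0
  obtain ⟨vs, hvs, ht⟩ := hv
  by_contra hcon
  push Not at hcon
  have h1 : ∀ k, ∀ᶠ m in (U : Filter ℕ), NkG Φ (ε m) k (vs m) < 1 := by
    intro k
    have hc : Continuous (Φ k) := hΦ.cont k
    have h2 : Tendsto (fun m => NkG Φ (ε m) k (vs m)) U (𝓝 (|v k| + 0 * Φ k v)) := by
      unfold NkG
      refine Tendsto.add ?_ (hε.mul ((hc.tendsto v).comp ht))
      exact (continuous_abs.tendsto _).comp (((continuous_apply k).tendsto v).comp ht)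
    have h3 : |v k| + 0 * Φ k v < 1 := by
      rw [zero_mul, add_zero]
      exact hcon k
    exact h2.eventually (gt_mem_nhds h3)
  have h4 : ∀ᶠ m in (U : Filter ℕ), vs m ≠ 0 := ht.eventually_ne hv0
  obtain ⟨m, hm1, hm2⟩ := ((eventually_all.2 h1).and h4).exists
  obtain ⟨k, hk⟩ := hsep m (vs m) (hvs m) hm2
  exact absurd (hm1 k) (not_lt.2 hk)

theorem L4G {D : ℕ} {Φ : Fin D → (Fin D → ℝ) → ℝ} (hΦ : Pen Φ) (hL3 : St_L3) (G : ℝ)
    (ε : ℕ → ℝ) (Λ : ℕ → AddSubgroup (Fin D → ℝ)) (U : Ultrafilter ℕ) (hG : 0 ≤ G)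
    (hε : ∀ m, 0 < ε m) (hεU : Tendsto ε U (𝓝 0))
    (hsep : ∀ m, ∀ v ∈ Λ m, v ≠ 0 → SepG Φ (ε m) v)
    (hF : ∀ m, ∀ F : Set (Fin D → ℝ), MeasurableSet F → Bornology.IsBounded F →
      (∀ v ∈ Λ m, v ≠ 0 → Disjoint F (tr v F)) → volume F < ENNReal.ofReal (1 - G * ε m)) :
    ∀ x : Fin D → ℝ, ∃ v ∈ Lim U Λ, ∀ l, v l ≤ x l ∧ x l ≤ v l + 1 := by
  intro x0
  by_contra hno
  push Not at hno
  have hs : ∀ v ∈ Lim U Λ, v ≠ 0 → ∃ l, 1 ≤ |v l| :=
    L2G hΦ ε Λ U hεU hsep
  -- step 1: the tolerance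
  set R : ℝ := (∑ l, |x0 l|) + 2 with hR
  have hfin := L4aux.finite_box (Lim U Λ) hs R
  have htol : ∀ᶠ r in 𝓝 (0 : ℝ), ∀ v ∈ {v : Fin D → ℝ | v ∈ Lim U Λ ∧ ∀ l, |v l| ≤ R},
      ¬ (∀ l, v l - r ≤ x0 l ∧ x0 l ≤ v l + 1 + r) := by
    rw [Filter.eventually_all_finite hfin]
    intro v hv
    obtain ⟨l, hl⟩ := hno v hv.1
    by_cases hvx : v l ≤ x0 l
    · have h2 := hl hvx
      have h3 : ∀ᶠ r in 𝓝 (0 : ℝ), r < x0 l - (v l + 1) := Iio_mem_nhds (by linarith)
      filter_upwards [h3] with r hr h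
      have := (h l).2
      linarith
    · push Not at hvx
      have h3 : ∀ᶠ r in 𝓝 (0 : ℝ), r < v l - x0 l := Iio_mem_nhds (by linarith)
      filter_upwards [h3] with r hr h
      have := (h l).1
      linarith
  obtain ⟨r, hr0, hr1, hrt⟩ : ∃ r : ℝ, 0 < r ∧ r < 1 / 4 ∧
      ∀ v ∈ {v : Fin D → ℝ | v ∈ Lim U Λ ∧ ∀ l, |v l| ≤ R},
      ¬ (∀ l, v l - r ≤ x0 l ∧ x0 l ≤ v l + 1 + r) := by
    have h1 := htol.filter_mono (nhdsWithin_le_nhds (s := Ioi (0 : ℝ)))
    have h2 : ∀ᶠ r in 𝓝 (0 : ℝ), r < 1 / 4 := Iio_mem_nhds (by norm_num)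
    have h2' := h2.filter_mono (nhdsWithin_le_nhds (s := Ioi (0 : ℝ)))
    have h3 : ∀ᶠ r in 𝓝[>] (0 : ℝ), 0 < r := self_mem_nhdsWithin
    obtain ⟨r, h⟩ := (h1.and (h2'.and h3)).exists
    exact ⟨r, h.2.2, h.2.1, h.1⟩
  -- step 2: the small cube is not met by the cubes of `Λ m`
  have hclaim : ∀ᶠ m in (U : Filter ℕ), ∀ v ∈ Λ m, ∀ y : Fin D → ℝ,
      (∀ l, |y l - x0 l| < r) → ¬ (∀ l, v l ≤ y l ∧ y l < v l + 1) := by
    by_contra hcon
    rw [← Ultrafilter.eventually_not] at hcon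
    have hcon' : ∀ᶠ m in (U : Filter ℕ), ∃ v : Fin D → ℝ, v ∈ Λ m ∧
        ∀ l, v l - r ≤ x0 l ∧ x0 l ≤ v l + 1 + r := by
      filter_upwards [hcon] with m hm
      push Not at hm
      obtain ⟨v, hv, y, hy, hvy⟩ := hm
      refine ⟨v, hv, fun l => ?_⟩
      have h1 := abs_lt.mp (hy l)
      have h2 := hvy l
      constructor <;> linarith [h1.1, h1.2, h2.1, h2.2]
    classical
    let w : ℕ → Fin D → ℝ := fun m =>
      if h : ∃ v : Fin D → ℝ, v ∈ Λ m ∧ ∀ l, v l - r ≤ x0 l ∧ x0 l ≤ v l + 1 + r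
      then h.choose else 0
    have hw : ∀ᶠ m in (U : Filter ℕ), w m ∈ Λ m ∧
        ∀ l, w m l - r ≤ x0 l ∧ x0 l ≤ w m l + 1 + r := by
      filter_upwards [hcon'] with m hm
      simp only [w, dif_pos hm]
      exact hm.choose_spec
    have hx0 : ∀ l, |x0 l| ≤ ∑ l, |x0 l| := fun l =>
      Finset.single_le_sum (fun i _ => abs_nonneg (x0 i)) (Finset.mem_univ l)
    have hbd : ∀ᶠ m in (U : Filter ℕ), w m ∈ Λ m ∧ ∀ l, |w m l| ≤ R := by
      filter_upwards [hw] with m hm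
      refine ⟨hm.1, fun l => ?_⟩
      have h1 := hm.2 l
      have h3 := abs_le.mp (hx0 l)
      rw [abs_le]
      constructor
      · linarith [h1.1, h1.2, h3.1, h3.2]
      · linarith [h1.1, h1.2, h3.1, h3.2]
    obtain ⟨x, hx, hlim⟩ := hL3 D Λ U R w hbd
    have hc : ∀ l, Tendsto (fun m => w m l) U (𝓝 (x l)) :=
      fun l => (tendsto_pi_nhds.mp hlim) l
    have hxR : ∀ l, |x l| ≤ R := fun l =>
      le_of_tendsto (hc l).abs (hbd.mono (fun m hm => hm.2 l))
    refine hrt x ⟨hx, hxR⟩ (fun l => ⟨?_, ?_⟩)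
    · have := le_of_tendsto (hc l)
        (hw.mono fun m hm => (by linarith [(hm.2 l).1] : w m l ≤ x0 l + r))
      linarith
    · have := ge_of_tendsto (hc l)
        (hw.mono fun m hm => (by linarith [(hm.2 l).2] : x0 l - 1 - r ≤ w m l))
      linarith
  -- step 3: choose `m`
  have hev : ∀ᶠ m in (U : Filter ℕ), ε m < 1 / 2 := hεU (Iio_mem_nhds (by norm_num))
  have hev2 : ∀ᶠ m in (U : Filter ℕ), 1 < (1 - ε m) ^ D + (2 * r) ^ D := by
    have ht : Tendsto (fun m => (1 - ε m) ^ D + (2 * r) ^ D) U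
        (𝓝 ((1 - 0) ^ D + (2 * r) ^ D)) :=
      ((tendsto_const_nhds.sub hεU).pow D).add tendsto_const_nhds
    refine ht (Ioi_mem_nhds ?_)
    have h5 : 0 < (2 * r) ^ D := by positivity
    simp only [sub_zero, one_pow]
    linarith
  obtain ⟨m, hm1, hm2, hm3⟩ := (hclaim.and (hev.and hev2)).exists
  have hεm := hε m
  obtain ⟨-, F, hFm, hFQ, hFs, hFd, -⟩ :=
    L1G hΦ (Λ m) hεm (by linarith) (hsep m) _ rfl
  set B : Set (Fin D → ℝ) := Set.pi univ (fun l => Ioo (x0 l - r) (x0 l + r)) with hB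
  have hBm : ∀ y, y ∈ B → ∀ l, |y l - x0 l| < r := by
    intro y hy l
    have h := hy l (mem_univ l)
    rw [abs_lt]
    constructor <;> linarith [h.1, h.2]
  have hBmeas : MeasurableSet B := MeasurableSet.univ_pi (fun l => measurableSet_Ioo)
  have hdisj : Disjoint F B := by
    rw [Set.disjoint_left]
    intro y hy hyB
    refine hm1 0 (Λ m).zero_mem y (hBm y hyB) (fun l => ?_)
    have h := hFQ hy l
    simp only [Pi.zero_apply, zero_add]
    exact h
  have hvol : ENNReal.ofReal (1 - G * ε m) ≤ volume (F ∪ B) := by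
    rw [measure_union hdisj hBmeas]
    have h1 : ENNReal.ofReal ((1 - ε m) ^ D) ≤ volume F := by
      have h2 : Set.pi univ (fun _ : Fin D => Ico (0 : ℝ) (1 - ε m)) ⊆ F := by
        intro y hy
        exact hFs (fun i => ⟨(hy i (mem_univ i)).1, (hy i (mem_univ i)).2⟩)
      refine le_trans ?_ (measure_mono h2)
      rw [Real.volume_pi_Ico]
      simp only [sub_zero, Finset.prod_const, Finset.card_univ, Fintype.card_fin]
      rw [ENNReal.ofReal_pow (by linarith)]
    have h3 : ENNReal.ofReal ((2 * r) ^ D) ≤ volume B := by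
      rw [hB, Real.volume_pi_Ioo]
      have h4 : ∀ l : Fin D, x0 l + r - (x0 l - r) = 2 * r := fun l => by ring
      simp only [h4, Finset.prod_const, Finset.card_univ, Fintype.card_fin]
      rw [ENNReal.ofReal_pow (by linarith)]
    have h5 : (0 : ℝ) ≤ (1 - ε m) ^ D := pow_nonneg (by linarith) _
    have h6 : (0 : ℝ) ≤ (2 * r) ^ D := by positivity
    have h7 : 0 ≤ G * ε m := by positivity
    calc ENNReal.ofReal (1 - G * ε m) ≤ ENNReal.ofReal ((1 - ε m) ^ D + (2 * r) ^ D) :=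
          ENNReal.ofReal_le_ofReal (by linarith)
      _ = ENNReal.ofReal ((1 - ε m) ^ D) + ENNReal.ofReal ((2 * r) ^ D) :=
          ENNReal.ofReal_add h5 h6
      _ ≤ _ := add_le_add h1 h3
  refine absurd (hF m (F ∪ B) (hFm.union hBmeas) ?_ ?_) (not_lt.mpr hvol)
  · -- bounded
    apply Bornology.IsBounded.union
    · refine (Metric.isBounded_Icc (0 : Fin D → ℝ) 1).subset ?_
      intro y hy
      exact ⟨fun l => (hFQ hy l).1, fun l => (hFQ hy l).2.le⟩
    · refine (Metric.isBounded_Icc (fun l => x0 l - r) (fun l => x0 l + r)).subset ?_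
      intro y hy
      exact ⟨fun l => (hy l (mem_univ l)).1.le, fun l => (hy l (mem_univ l)).2.le⟩
  · -- disjointness
    intro v hv hv0
    have hQ : ∀ y ∈ F, ∀ l, 0 ≤ y l ∧ y l < 1 := fun y hy => hFQ hy
    rw [Set.disjoint_left]
    rintro z hz ⟨y, hy, rfl⟩
    rcases hz with hz | hz
    · rcases hy with hy | hy
      · exact Set.disjoint_left.mp (hFd v hv hv0) hz ⟨y, hy, rfl⟩
      · refine hm1 (-v) ((Λ m).neg_mem hv) y (hBm y hy) (fun l => ?_)
        have h := hQ _ hz l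
        simp only [Pi.add_apply] at h
        simp only [Pi.neg_apply]
        constructor <;> linarith [h.1, h.2]
    · rcases hy with hy | hy
      · refine hm1 v hv _ (hBm _ hz) (fun l => ?_)
        have h := hQ _ hy l
        simp only [Pi.add_apply]
        constructor <;> linarith [h.1, h.2]
      · -- both in the small cube: then `v` is short
        have hvs : ∀ l, |v l| < 1 - ε m := by
          intro l
          have h1 := abs_lt.mp (hBm _ hz l)
          have h2 := abs_lt.mp (hBm _ hy l)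
          simp only [Pi.add_apply] at h1
          rw [abs_lt]
          constructor <;> linarith [h1.1, h1.2, h2.1, h2.2]
        have hp : (fun l => max 0 (v l)) ∈ F := by
          apply hFs
          intro l
          refine ⟨le_max_left _ _, max_lt (by linarith) ((le_abs_self _).trans_lt (hvs l))⟩
        have hq : (fun l => max 0 (-v l)) ∈ F := by
          apply hFs
          intro l
          refine ⟨le_max_left _ _, max_lt (by linarith) ((neg_le_abs _).trans_lt (hvs l))⟩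
        refine Set.disjoint_left.mp (hFd v hv hv0) hp ⟨_, hq, ?_⟩
        funext l
        simp only [Pi.add_apply]
        rcases le_total 0 (v l) with h | h
        · rw [max_eq_left (by linarith : -v l ≤ 0), max_eq_right h]; ring
        · rw [max_eq_right (by linarith : 0 ≤ -v l), max_eq_left h]; ring

open L6aux in
theorem L6G {D : ℕ} {Φ : Fin D → (Fin D → ℝ) → ℝ} (hΦ : Pen Φ) (hL3 : St_L3) (hB3 : St_B3)
    (η : ℝ) (ε : ℕ → ℝ) (Λ : ℕ → AddSubgroup (Fin D → ℝ)) (U : Ultrafilter ℕ) (hη : 0 < η)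
    (hε : ∀ m, 0 < ε m) (hεt : Tendsto ε U (𝓝 0))
    (hsep : ∀ m, ∀ v ∈ Λ m, v ≠ 0 → SepG Φ (ε m) v) (htile : IsTile (Lim U Λ)) :
    ∀ᶠ m in U, ∑ᶠ v ∈ {v | v ∈ Λ m ∧ (∀ l, |v l| < 1) ∧ ∃ k, 0 < v k ∧ 1 ≤ NkG Φ (ε m) k v},
      ∏ l, (1 - |v l|) ≤ ε m * (SSG Φ (Lim U Λ) + η) := by
  classical
  have hPhi : ∀ k : Fin D, (∀ w, 0 ≤ Φ k w) ∧ (∀ w, (∀ i, |w i| ≤ 1) → Φ k w ≤ 1) ∧
      Φ k 0 = 0 ∧ Continuous (Φ k) := by
    intro k
    exact ⟨hΦ.nonneg k, hΦ.le_one k, hΦ.zero k, hΦ.cont k⟩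
  obtain ⟨_, hfin, _⟩ := hB3 D (Lim U Λ) htile
  set L := Lim U Λ with hL
  have hWfin := hfin 1
  set W : Finset (Fin D → ℝ) := hWfin.toFinset with hWdef
  have hW : ∀ u, u ∈ W ↔ u ∈ L ∧ ∀ i, |u i| ≤ 1 := by
    intro u
    rw [hWdef, Set.Finite.mem_toFinset]
    rfl
  -- the approximating sequences
  have hex : ∀ u ∈ W, ∃ v : ℕ → (Fin D → ℝ), (∀ m, v m ∈ Λ m) ∧ Tendsto v U (𝓝 u) := by
    intro u hu
    exact ((hW u).1 hu).1
  choose! v hvΛ hvt using hex
  -- (i)
  have hi : ∀ᶠ m in U, ∀ x ∈ Λ m, (∀ l, |x l| < 1) → ∃ u ∈ W, x = v u m := by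
    by_contra hcon
    have hcon' := Ultrafilter.eventually_not.2 hcon
    have hcon2 : ∀ᶠ m in U, ∃ x, x ∈ Λ m ∧ (∀ l, |x l| < 1) ∧ ∀ u ∈ W, x ≠ v u m := by
      filter_upwards [hcon'] with m hm
      push Not at hm
      obtain ⟨x, hx1, hx2, hx3⟩ := hm
      exact ⟨x, hx1, hx2, hx3⟩
    have hch : ∃ w : ℕ → (Fin D → ℝ), ∀ᶠ m in U, w m ∈ Λ m ∧ (∀ l, |w m l| < 1) ∧
        ∀ u ∈ W, w m ≠ v u m := by
      refine ⟨fun m => if h : ∃ x, x ∈ Λ m ∧ (∀ l, |x l| < 1) ∧ ∀ u ∈ W, x ≠ v u m then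
        h.choose else 0, ?_⟩
      filter_upwards [hcon2] with m hm
      rw [dif_pos hm]
      exact hm.choose_spec
    obtain ⟨w, hw⟩ := hch
    obtain ⟨x, hxL, hxt⟩ := hL3 D Λ U 1 w (by
      filter_upwards [hw] with m hm
      exact ⟨hm.1, fun l => (hm.2.1 l).le⟩)
    have hxW : x ∈ W := by
      refine (hW x).2 ⟨hxL, fun i => ?_⟩
      have h1 : Tendsto (fun m => |w m i|) U (𝓝 |x i|) :=
        ((continuous_apply i).abs.tendsto x).comp hxt
      refine le_of_tendsto h1 ?_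
      filter_upwards [hw] with m hm
      exact (hm.2.1 i).le
    have hz : Tendsto (fun m => w m - v x m) U (𝓝 0) := by
      have := hxt.sub (hvt x hxW)
      rwa [sub_self] at this
    have hN : ∀ k, ∀ᶠ m in U, NkG Φ (ε m) k (w m - v x m) < 1 := by
      intro k
      have h1 : Tendsto (fun m => |(w m - v x m) k|) U (𝓝 |(0 : Fin D → ℝ) k|) :=
        ((continuous_apply k).abs.tendsto (0 : Fin D → ℝ)).comp hz
      have h2 : Tendsto (fun m => Φ k (w m - v x m)) U (𝓝 (Φ k 0)) :=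
        ((hPhi k).2.2.2.tendsto 0).comp hz
      have h3 := h1.add (hεt.mul h2)
      rw [(hPhi k).2.2.1] at h3
      have h4 : |(0 : Fin D → ℝ) k| + 0 * (0 : ℝ) = 0 := by simp
      rw [h4] at h3
      exact h3.eventually (gt_mem_nhds one_pos)
    have hN' : ∀ᶠ m in U, ∀ k, NkG Φ (ε m) k (w m - v x m) < 1 := eventually_all.2 hN
    obtain ⟨m, hm1, hm2⟩ := (hw.and hN').exists
    obtain ⟨k, hk⟩ := hsep m (w m - v x m) ((Λ m).sub_mem hm1.1 (hvΛ x hxW m))
      (sub_ne_zero.2 (hm1.2.2 x hxW))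
    exact absurd hk (not_le.2 (hm2 k))
  -- the weights
  set T : (Fin D → ℝ) → ℝ := fun u => ∑ k, if u ∈ AA L k then wgt k u * Φ k u else 0
    with hTdef
  have hT0 : ∀ u ∈ W, 0 ≤ T u := by
    intro u hu
    refine Finset.sum_nonneg fun k _ => ?_
    split_ifs
    · exact mul_nonneg (wgt_nonneg k ((hW u).1 hu).2) ((hPhi k).1 u)
    · exact le_rfl
  have hSS : SSG Φ L = ∑ u ∈ W, T u := by
    rw [SSG, hTdef, Finset.sum_comm]
    refine Finset.sum_congr rfl fun k _ => ?_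
    have hsub : AA L k ⊆ (W : Set (Fin D → ℝ)) := by
      rintro u ⟨h1, h2, h3⟩
      refine Finset.mem_coe.2 ((hW u).2 ⟨h1, fun i => ?_⟩)
      by_cases hik : i = k
      · rw [hik, h2, abs_one]
      · exact (h3 i hik).le
    have hAfin : (AA L k).Finite := W.finite_toSet.subset hsub
    rw [Ex, finsum_mem_eq_finite_toFinset_sum _ hAfin, ← Finset.sum_filter]
    refine Finset.sum_congr ?_ fun _ _ => rfl
    ext u
    rw [Set.Finite.mem_toFinset, Finset.mem_filter]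
    exact ⟨fun h => ⟨Finset.mem_coe.1 (hsub h), h⟩, fun h => h.2⟩
  set η' : ℝ := η / (W.card + 1) with hη'
  have hcard : (0 : ℝ) < W.card + 1 := by positivity
  have hη'0 : 0 < η' := div_pos hη hcard
  set P : ℕ → Set (Fin D → ℝ) := fun m =>
    {v | v ∈ Λ m ∧ (∀ l, |v l| < 1) ∧ ∃ k, 0 < v k ∧ 1 ≤ NkG Φ (ε m) k v} with hP
  -- the claim for one `u`
  have hclaim : ∀ u ∈ W, ∀ᶠ m in U, v u m ∈ P m →
      ∏ l, (1 - |v u m l|) ≤ ε m * (T u + η') := by
    intro u hu
    rcases U.em (fun m => v u m ∈ P m) with hin | hout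
    · have hin2 : ∀ᶠ m in U, ∃ k, 0 < v u m k ∧ 1 ≤ NkG Φ (ε m) k (v u m) := by
        filter_upwards [hin] with m hm
        exact hm.2.2
      obtain ⟨k, hk⟩ := exists_of_eventually U hin2
      obtain ⟨huL, hu1⟩ := (hW u).1 hu
      have hvk : Tendsto (fun m => v u m k) U (𝓝 (u k)) :=
        ((continuous_apply k).tendsto u).comp (hvt u hu)
      have hPk : Tendsto (fun m => Φ k (v u m)) U (𝓝 (Φ k u)) :=
        ((hPhi k).2.2.2.tendsto u).comp (hvt u hu)
      have huk : u k = 1 := by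
        refine le_antisymm ((le_abs_self _).trans (hu1 k)) ?_
        have h3 := hvk.add (hεt.mul hPk)
        rw [zero_mul, add_zero] at h3
        refine ge_of_tendsto h3 ?_
        filter_upwards [hk] with m hm
        have h4 := hm.2
        rw [NkG, abs_of_pos hm.1] at h4
        exact h4
      have hwk : Tendsto (fun m => Φ k (v u m) * wgt k (v u m)) U
          (𝓝 (Φ k u * wgt k u)) :=
        hPk.mul (((wgt_cont k).tendsto u).comp (hvt u hu))
      have hc : Φ k u * wgt k u ≤ T u := by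
        by_cases huA : u ∈ AA L k
        · have h1 : (if u ∈ AA L k then wgt k u * Φ k u else 0) ≤ T u := by
            refine Finset.single_le_sum (f := fun k => if u ∈ AA L k then
              wgt k u * Φ k u else 0) (fun j _ => ?_) (Finset.mem_univ k)
            show (0 : ℝ) ≤ if u ∈ AA L j then wgt j u * Φ j u else 0
            split_ifs
            · exact mul_nonneg (wgt_nonneg j hu1) ((hPhi j).1 u)
            · exact le_rfl
          rw [if_pos huA, mul_comm] at h1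
          exact h1
        · have h1 : wgt k u = 0 := by
            have h2 : ∃ l, l ≠ k ∧ ¬ |u l| < 1 := by
              by_contra h3
              push Not at h3
              exact huA ⟨huL, huk, h3⟩
            obtain ⟨l, hlk, hl⟩ := h2
            refine Finset.prod_eq_zero (i := l) (Finset.mem_erase.2 ⟨hlk, Finset.mem_univ l⟩) ?_
            have h3 := hu1 l
            have h4 := not_lt.1 hl
            linarith
          rw [h1, mul_zero]
          exact hT0 u hu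
      have hev : ∀ᶠ m in U, Φ k (v u m) * wgt k (v u m) < T u + η' :=
        hwk.eventually (gt_mem_nhds (by linarith))
      filter_upwards [hev, hk, hin] with m hm1 hm2 hm3 _
      have h1 : ∏ l, (1 - |v u m l|) = (1 - |v u m k|) * wgt k (v u m) := by
        rw [wgt, Finset.mul_prod_erase Finset.univ (fun l => 1 - |v u m l|) (Finset.mem_univ k)]
      have h2 : 0 ≤ wgt k (v u m) := wgt_nonneg k fun i => (hm3.2.1 i).le
      have h3 : 1 - |v u m k| ≤ ε m * Φ k (v u m) := by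
        have h4 := hm2.2
        rw [NkG] at h4
        linarith
      calc ∏ l, (1 - |v u m l|) = (1 - |v u m k|) * wgt k (v u m) := h1
        _ ≤ (ε m * Φ k (v u m)) * wgt k (v u m) := mul_le_mul_of_nonneg_right h3 h2
        _ = ε m * (Φ k (v u m) * wgt k (v u m)) := by ring
        _ ≤ ε m * (T u + η') := mul_le_mul_of_nonneg_left hm1.le (hε m).le
    · filter_upwards [hout] with m hm hm'
      exact absurd hm' hm
  have hclaim' : ∀ᶠ m in U, ∀ u ∈ W, v u m ∈ P m →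
      ∏ l, (1 - |v u m l|) ≤ ε m * (T u + η') :=
    (eventually_all_finset W).2 hclaim
  filter_upwards [hi, hclaim'] with m hm1 hm2
  have hmain : ∑ᶠ x ∈ P m, ∏ l, (1 - |x l|) ≤ ∑ u ∈ W, ε m * (T u + η') := by
    refine finsum_le (P m) (fun x => ∏ l, (1 - |x l|)) W (fun u => v u m)
      (fun x hx => hm1 x hx.1 hx.2.1) ?_ _ ?_ ?_
    · intro x hx
      exact Finset.prod_nonneg fun l _ => by linarith [hx.2.1 l]
    · intro u hu
      exact mul_nonneg (hε m).le (by linarith [hT0 u hu])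
    · intro u hu hux
      exact hm2 u hu hux
  refine hmain.trans ?_
  rw [← Finset.mul_sum, Finset.sum_add_distrib, ← hSS, Finset.sum_const, nsmul_eq_mul]
  refine mul_le_mul_of_nonneg_left ?_ (hε m).le
  have h5 : (W.card : ℝ) * η' ≤ η := by
    rw [hη', mul_div_assoc', div_le_iff₀ hcard]
    nlinarith
  linarith



/-- L7: the bound for all subgroups. -/
theorem L7G {D : ℕ} {Φ : Fin D → (Fin D → ℝ) → ℝ} (hΦ : Pen Φ) (G G' : ℝ) (hG' : 0 ≤ G')
    (hGG : G < G') (hSS : ∀ L : AddSubgroup (Fin D → ℝ), IsTile L → SSG Φ L ≤ G) :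
    ∃ ε0 : ℝ, 0 < ε0 ∧ ∀ ε, 0 < ε → ε < ε0 → ∀ Λ : AddSubgroup (Fin D → ℝ),
    (∀ v ∈ Λ, v ≠ 0 → SepG Φ ε v) →
    ∃ F : Set (Fin D → ℝ), MeasurableSet F ∧ Bornology.IsBounded F ∧
      (∀ v ∈ Λ, v ≠ 0 → Disjoint F (tr v F)) ∧ ENNReal.ofReal (1 - G' * ε) ≤ volume F := by
  by_contra hcon
  push Not at hcon
  have hex : ∀ m : ℕ, ∃ e : ℝ, ∃ Λ : AddSubgroup (Fin D → ℝ), 0 < e ∧ e < 1 / ((m : ℝ) + 1) ∧
      (∀ v ∈ Λ, v ≠ 0 → SepG Φ e v) ∧
      ∀ F : Set (Fin D → ℝ), MeasurableSet F → Bornology.IsBounded F →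
        (∀ v ∈ Λ, v ≠ 0 → Disjoint F (tr v F)) → volume F < ENNReal.ofReal (1 - G' * e) := by
    intro m
    obtain ⟨e, he0, he1, Λ, hS, hF⟩ := hcon (1 / ((m : ℝ) + 1)) (by positivity)
    exact ⟨e, Λ, he0, he1, hS, hF⟩
  choose e Λ he0 he1 hS hF using hex
  set U : Ultrafilter ℕ := Filter.hyperfilter ℕ with hU
  have hUle : (U : Filter ℕ) ≤ atTop := Nat.hyperfilter_le_atTop
  have hlim : Tendsto e U (𝓝 0) := by
    have h : Tendsto e atTop (𝓝 0) := squeeze_zero (fun m => (he0 m).le) (fun m => (he1 m).le)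
      tendsto_one_div_add_atTop_nhds_zero_nat
    exact h.mono_left hUle
  have hcov := L4G hΦ L3 G' e Λ U hG' he0 hlim hS hF
  have hsep := L2G hΦ e Λ U hlim hS
  have htile := L5 D (Lim U Λ) hsep hcov
  have hG := hSS (Lim U Λ) htile
  obtain ⟨m, hm⟩ := (L6G hΦ L3 B3 (G' - G) e Λ U (by linarith) he0 hlim hS htile).exists
  have hem1 : e m < 1 := by
    refine lt_of_lt_of_le (he1 m) ?_
    rw [div_le_one (by positivity)]
    have : (0 : ℝ) ≤ (m : ℝ) := by positivity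
    linarith
  obtain ⟨-, F, hFm, hFQ, -, hFd, hFv⟩ := L1G hΦ (Λ m) (he0 m) hem1 (hS m) _ rfl
  have hFb : Bornology.IsBounded F := by
    refine (Metric.isBounded_Icc (0 : Fin D → ℝ) 1).subset (hFQ.trans ?_)
    intro x hx
    exact ⟨fun i => (hx i).1, fun i => (hx i).2.le⟩
  have h7 := hF m F hFm hFb hFd
  have h8 : ENNReal.ofReal (1 - G' * e m) ≤ volume F := by
    refine le_trans (ENNReal.ofReal_le_ofReal ?_) hFv
    have h9 : e m * (SSG Φ (Lim U Λ) + (G' - G)) ≤ e m * G' :=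
      mul_le_mul_of_nonneg_left (by linarith) (he0 m).le
    linarith
  exact absurd h7 (not_lt.mpr h8)

end Pool.Agent.K3h26.KP
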