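import Pool.Agent.K3h26.KP.Pot

/-!
# The induction over the dimension (MP_c4753b_co)
-/

set_option autoImplicit false

open MeasureTheory Filter Topology Set
open scoped ENNReal NNReal

namespace Pool.Agent.K3h26.KP

open H947TP

theorem ty_self : ∀ κ : Fin 8, ty κ κ = 4 := by decide

theorem ty_le : ∀ κ l : Fin 8, ty κ l ≤ 4 := by decide

theorem mm_nonneg {D : ℕ} (e : Fin D → Fin 8) (κ : Fin 8) (u : Fin D → ℝ) (j : Fin 4) :
    0 ≤ mm e κ u j := NNReal.coe_nonneg _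

theorem mm_single {D : ℕ} (e : Fin D → Fin 8) (p : Fin D) :
    mm e (e p) (Pi.single p (1 : ℝ)) = fun _ => 0 := by
  funext j
  unfold mm
  rw [NNReal.coe_eq_zero, ← bot_eq_zero, Finset.sup_eq_bot_iff]
  intro i _
  rw [bot_eq_zero]
  by_cases h : i = p
  · subst h
    rw [if_neg]
    rw [ty_self]
    have := j.2
    omega
  · rw [Pi.single_eq_of_ne h]
    simp

theorem mm_insert {D : ℕ} (e : Fin (D + 1) → Fin 8) (p : Fin (D + 1)) (κ : Fin 8)
    (w : Fin D → ℝ) (t : ℝ) (j : Fin 4) :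
    mm e κ (Fin.insertNth p t w : Fin (D + 1) → ℝ) j =
      max (mm (e ∘ p.succAbove) κ w j) (if ty κ (e p) = (j : ℕ) then |t| else 0) := by
  unfold mm
  rw [Fin.univ_succAbove D p, Finset.sup_cons, Finset.sup_map, max_comm]
  rw [NNReal.coe_max]
  congr 1
  · congr 2
    funext i
    show (if ty κ (e (p.succAbove i)) = (j : ℕ) then
      ‖(Fin.insertNth p t w : Fin (D + 1) → ℝ) (p.succAbove i)‖₊ else 0) = _
    rw [Fin.insertNth_apply_succAbove]
    rfl
  · rw [Fin.insertNth_apply_same]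
    split_ifs
    · simp
    · simp

theorem mm_insert_eq {D : ℕ} (e : Fin (D + 1) → Fin 8) (p : Fin (D + 1)) (κ : Fin 8)
    (w : Fin D → ℝ) (t : ℝ) (j0 : Fin 4) (h : ty κ (e p) = (j0 : ℕ)) :
    mm e κ (Fin.insertNth p t w : Fin (D + 1) → ℝ) = upd (mm (e ∘ p.succAbove) κ w) j0 |t| := by
  funext j
  rw [mm_insert]
  unfold upd
  by_cases hj : j = j0
  · subst hj
    rw [if_pos h, Function.update_self]
  · rw [Function.update_of_ne hj, if_neg, max_eq_left (mm_nonneg _ _ _ _)]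
    rw [h]
    exact fun hc => hj (Fin.ext hc.symm)

theorem mm_insert_none {D : ℕ} (e : Fin (D + 1) → Fin 8) (p : Fin (D + 1)) (κ : Fin 8)
    (w : Fin D → ℝ) (t : ℝ) (h : ty κ (e p) = 4) :
    mm e κ (Fin.insertNth p t w : Fin (D + 1) → ℝ) = mm (e ∘ p.succAbove) κ w := by
  funext j
  rw [mm_insert, if_neg, max_eq_left (mm_nonneg _ _ _ _)]
  rw [h]
  have := j.2
  omega

theorem Tf_none (κ : Fin 8) (m : ℕ) (p : Fin 8) (hp : m.testBit p = false) (h : ty κ p = 4) :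
    Tf κ (m ||| 2 ^ (p : ℕ)) = Tf κ m := by
  funext n
  unfold Tf
  simp only [cn_ins κ m _ p hp, h]
  simp

theorem df_none (κ : Fin 8) (m : ℕ) (p : Fin 8) (hp : m.testBit p = false) (h : ty κ p = 4) :
    df κ (m ||| 2 ^ (p : ℕ)) = df κ m := by
  funext j
  unfold df
  have h4 : ¬ (4 : ℕ) = (j : ℕ) := by
    have := j.2
    omega
  rw [cn_ins κ m _ p hp, h, if_neg h4, add_zero]

theorem df_le (κ : Fin 8) (m : ℕ) (j : Fin 4) : df κ m j ≤ 8 := by
  unfold df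
  split_ifs <;> omega

theorem one (hCVX : S_CVX) {D : ℕ} (e : Fin (D + 1) → Fin 8) (p : Fin (D + 1)) (κ : Fin 8) (m : ℕ)
    (hp : m.testBit (e p) = false) (β : (Fin 4 → ℝ) → ℝ) (hβ : Nice β)
    (hG : GB β (Tf κ m) (df κ m)) :
    ∃ β' : (Fin 4 → ℝ) → ℝ, Nice β' ∧
      GB β' (Tf κ (m ||| 2 ^ ((e p : Fin 8) : ℕ))) (df κ (m ||| 2 ^ ((e p : Fin 8) : ℕ))) ∧
      ∀ (w : Fin D → ℝ) (θ : ℝ), 0 ≤ θ → θ ≤ 1 →
        (1 - θ) * β (mm e κ (Fin.insertNth p θ w : Fin (D + 1) → ℝ)) +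
          θ * β (mm e κ (Fin.insertNth p (θ - 1) w : Fin (D + 1) → ℝ)) ≤
        β' (mm (e ∘ p.succAbove) κ w) := by
  by_cases h : ty κ (e p) = 4
  · refine ⟨β, hβ, ?_, ?_⟩
    · rw [Tf_none κ m _ hp h, df_none κ m _ hp h]
      exact hG
    · intro w θ _ _
      rw [mm_insert_none e p κ w θ h, mm_insert_none e p κ w (θ - 1) h]
      apply le_of_eq
      ring
  · have h4 : ty κ (e p) < 4 := lt_of_le_of_ne (ty_le _ _) h
    obtain ⟨β', hβ', hstp, hgb⟩ := hCVX β hβ ⟨ty κ (e p), h4⟩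
    refine ⟨β', hβ', ?_, ?_⟩
    · refine hgb (Tf κ m) _ (df κ m) _ ?_ (df_le _ _ _) ?_ hG ?_
      · unfold df
        rw [if_neg]
        have h1 := cn_le κ (m ||| 2 ^ ((e p : Fin 8) : ℕ)) (ty κ (e p))
        rw [cn_ins κ m _ _ hp, if_pos rfl] at h1
        show ¬ cn κ m (ty κ (e p)) = tt κ (ty κ (e p))
        omega
      · intro i hi
        unfold df
        have h5 : ¬ ty κ (e p) = (i : ℕ) := fun hc => hi (Fin.ext hc.symm)
        rw [cn_ins κ m _ _ hp, if_neg h5, add_zero]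
      · intro n hn
        exact tab_step κ m (e p) ⟨ty κ (e p), h4⟩ hp rfl n hn
    · intro w θ h0 h1
      rw [mm_insert_eq e p κ w θ ⟨ty κ (e p), h4⟩ rfl,
        mm_insert_eq e p κ w (θ - 1) ⟨ty κ (e p), h4⟩ rfl, abs_of_nonneg h0,
        abs_of_nonpos (by linarith), neg_sub]
      exact hstp _ θ h0 h1

theorem exone (hCVX : S_CVX) (hEV : S_EV) {D : ℕ} (L : AddSubgroup (Fin (D + 1) → ℝ))
    (p : Fin (D + 1)) (hL' : IsTile (L.map (remMap p))) (θ : (Fin D → ℝ) → ℝ)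
    (hθ : ∀ w ∈ L.map (remMap p), 0 ≤ θ w ∧ θ w < 1 ∧
      (Fin.insertNth p (θ w) w : Fin (D + 1) → ℝ) ∈ L)
    (hex : ∀ (k : Fin D) (f : (Fin (D + 1) → ℝ) → ℝ), Ex L (p.succAbove k) f =
      Ex (L.map (remMap p)) k (fun w =>
        (1 - θ w) * f (Fin.insertNth p (θ w) w : Fin (D + 1) → ℝ) +
          θ w * f (Fin.insertNth p (θ w - 1) w : Fin (D + 1) → ℝ)))
    (e : Fin (D + 1) → Fin 8) (m : ℕ) (hp : m.testBit (e p) = false) (k : Fin D)
    (κ : Fin 8) (β : (Fin 4 → ℝ) → ℝ) (hβ : Nice β)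
    (hG : GB β (Tf κ m) (df κ m)) :
    ∃ β' : (Fin 4 → ℝ) → ℝ, Nice β' ∧
      GB β' (Tf κ (m ||| 2 ^ ((e p : Fin 8) : ℕ))) (df κ (m ||| 2 ^ ((e p : Fin 8) : ℕ))) ∧
      Ex L (p.succAbove k) (fun u => β (mm e κ u)) ≤
        Ex (L.map (remMap p)) k (fun w => β' (mm (e ∘ p.succAbove) κ w)) := by
  obtain ⟨β', h1, h2, h3⟩ := one hCVX e p κ m hp β hβ hG
  refine ⟨β', h1, h2, ?_⟩
  rw [hex]
  refine (hEV D _ hL').2.1 k _ _ ?_
  intro u hu
  obtain ⟨t0, t1, -⟩ := hθ u hu.1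
  exact h3 u (θ u) t0 t1.le

theorem GB_zero {β : (Fin 4 → ℝ) → ℝ} {T : (Fin 4 → ℕ) → ℕ} {d : Fin 4 → ℕ} (h : GB β T d) :
    1600000 * β (fun _ => 0) ≤ T (fun _ => 0) := by
  have h1 := h (fun _ => 0) (fun i => Nat.zero_le _)
  have e : pt (fun _ => 0) = fun _ => (0 : ℝ) := by
    funext i
    simp [pt]
  rwa [e] at h1

theorem ind (hCVX : S_CVX) (hSTEP : S_STEP) (hEV : S_EV) : ∀ (D : ℕ)
    (L : AddSubgroup (Fin D → ℝ)), IsTile L → ∀ (e : Fin D → Fin 8), Function.Injective e →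
    ∀ m : ℕ, m < 256 → (∀ l : Fin 8, m.testBit l = true ↔ ∀ i, e i ≠ l) →
    ∀ β : Fin D → (Fin 4 → ℝ) → ℝ,
    (∀ k, Nice (β k) ∧ GB (β k) (Tf (e k) m) (df (e k) m)) →
    1600000 * ∑ k, Ex L k (fun u => β k (mm e (e k) u)) ≤ hh m := by
  intro D
  induction D with
  | zero =>
    intro L _ e _ m _ _ β _
    simp
  | succ D ih =>
    intro L hL e he m hm hme β hβ
    obtain ⟨p, hp⟩ := allB5 (D + 1) L (Nat.succ_pos D) hL
    have hL' := C1 D L p hL hp
    obtain ⟨θ, hθ, hex⟩ := hSTEP D L p hL hp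
    have hbit : m.testBit (e p) = false := by
      rw [← Bool.not_eq_true]
      intro h
      exact (hme (e p)).1 h p rfl
    rw [Fin.sum_univ_succAbove _ p, mul_add]
    have h1 : 1600000 * Ex L p (fun u => β p (mm e (e p) u)) ≤ Tf (e p) m (fun _ => 0) := by
      rw [((hEV (D + 1) L hL).1 p hp _).2, mm_single]
      exact GB_zero (hβ p).2
    have h2 : ∀ k : Fin D, ∃ β' : (Fin 4 → ℝ) → ℝ, Nice β' ∧
        GB β' (Tf (e (p.succAbove k)) (m ||| 2 ^ ((e p : Fin 8) : ℕ)))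
          (df (e (p.succAbove k)) (m ||| 2 ^ ((e p : Fin 8) : ℕ))) ∧
        Ex L (p.succAbove k) (fun u => β (p.succAbove k) (mm e (e (p.succAbove k)) u)) ≤
          Ex (L.map (remMap p)) k (fun w => β' (mm (e ∘ p.succAbove) (e (p.succAbove k)) w)) := by
      intro k
      exact exone hCVX hEV L p hL' θ hθ hex e m hbit k (e (p.succAbove k)) _
        (hβ (p.succAbove k)).1 (hβ (p.succAbove k)).2
    choose β' hn hg hle using h2
    have h3 := ih (L.map (remMap p)) hL' (e ∘ p.succAbove)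
      (he.comp (Fin.succAbove_right_injective)) (m ||| 2 ^ ((e p : Fin 8) : ℕ))
      (by
        have : (2 : ℕ) ^ ((e p : Fin 8) : ℕ) < 2 ^ 8 :=
          Nat.pow_lt_pow_right (by norm_num) (e p).2
        exact Nat.or_lt_two_pow (n := 8) hm this)
      (by
        intro l
        rw [testBit_ins, hme]
        constructor
        · rintro (h | h) i
          · exact h _
          · rw [h]
            intro hc
            exact Fin.succAbove_ne p i (he hc)
        · intro h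
          by_cases hl : l = e p
          · exact Or.inr hl
          · left
            intro i
            rcases Fin.eq_self_or_eq_succAbove p i with rfl | ⟨i', rfl⟩
            · exact fun hc => hl hc.symm
            · exact h i') β'
      (fun k => ⟨hn k, hg k⟩)
    have h4 : 1600000 * ∑ k, Ex L (p.succAbove k)
        (fun u => β (p.succAbove k) (mm e (e (p.succAbove k)) u)) ≤
        hh (m ||| 2 ^ ((e p : Fin 8) : ℕ)) := by
      refine le_trans ?_ h3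
      refine mul_le_mul_of_nonneg_left (Finset.sum_le_sum fun k _ => hle k) (by norm_num)
    have h5 := pot_step ⟨m, hm⟩ (e p) hbit
    have h6 : (Tf (e p) m (fun _ => 0) : ℝ) + hh (m ||| 2 ^ ((e p : Fin 8) : ℕ)) ≤ hh m := by
      exact_mod_cast h5
    linarith

end Pool.Agent.K3h26.KP
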