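import Pool.Agent.K3h26.KP.TabB

/-!
# The potential of the sets of removed coordinates (MP_c4753b_co)
-/

set_option autoImplicit false

namespace Pool.Agent.K3h26.KP

/-- the potential -/
def hh (m : ℕ) : ℕ := (hN >>> (24 * m)) % 2 ^ 24

/-- the orders for which the relation between the first three directions is used -/
def pps (p q r : Fin 8) : Prop :=
  ty q p = 0 ∧ ((ty r p = 1 ∧ ty r q = 2) ∨ (ty r p = 2 ∧ ty r q = 1))

instance (p q r : Fin 8) : Decidable (pps p q r) := by unfold pps; infer_instance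

theorem pot_step : ∀ m : Fin 256, ∀ κ : Fin 8, (m : ℕ).testBit κ = false →
    Tf κ m (fun _ => 0) + hh ((m : ℕ) ||| 2 ^ (κ : ℕ)) ≤ hh m := by
  decide +kernel

theorem pot_top : ∀ p q r : Fin 8, p ≠ q → p ≠ r → q ≠ r →
    (if pps p q r then 1511112 else Tf q (2 ^ (p : ℕ)) (fun _ => 0) +
      Tf r (2 ^ (p : ℕ) ||| 2 ^ (q : ℕ)) (fun _ => 0)) +
      hh ((2 ^ (p : ℕ) ||| 2 ^ (q : ℕ)) ||| 2 ^ (r : ℕ)) ≤ 6398354 := by
  decide +kernel

end Pool.Agent.K3h26.KP
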