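import Pool.Agent.H947R2.TP.All

/-!
# Dimension eight (MP_c4753b_co): definitions and statements of the bricks
-/

set_option autoImplicit false

open MeasureTheory Filter Topology Set
open scoped ENNReal NNReal

namespace Pool.Agent.K3h26.KP

open H947TP

/-! ## Penalties in general -/

/-- the properties of a family of penalties used in the limit argument -/
structure Pen {D : ℕ} (Φ : Fin D → (Fin D → ℝ) → ℝ) : Prop where
  nonneg : ∀ k w, 0 ≤ Φ k w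
  le_one : ∀ k w, (∀ i, |w i| ≤ 1) → Φ k w ≤ 1
  even : ∀ k w, Φ k (-w) = Φ k w
  zero : ∀ k, Φ k 0 = 0
  cont : ∀ k, Continuous (Φ k)
  conv : ∀ k, ConvexOn ℝ univ (Φ k)

/-- `|w k| + ε Φ_k(w)` -/
noncomputable def NkG {D : ℕ} (Φ : Fin D → (Fin D → ℝ) → ℝ) (ε : ℝ) (k : Fin D)
    (w : Fin D → ℝ) : ℝ := |w k| + ε * Φ k w

/-- The convex body: the cube `[-1/2,1/2]^D` with its faces pushed in slightly. -/
def bodyG {D : ℕ} (Φ : Fin D → (Fin D → ℝ) → ℝ) (ε : ℝ) : Set (Fin D → ℝ) :=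
  {x | ∀ k, NkG Φ ε k (fun i => 2 * x i) ≤ 1}

/-- `v` separates: translates of the body by `x` and `x + v` do not overlap. -/
def SepG {D : ℕ} (Φ : Fin D → (Fin D → ℝ) → ℝ) (ε : ℝ) (v : Fin D → ℝ) : Prop :=
  ∃ k, 1 ≤ NkG Φ ε k v

/-- the sum over the directions of the mean penalties -/
noncomputable def SSG {D : ℕ} (Φ : Fin D → (Fin D → ℝ) → ℝ) (L : AddSubgroup (Fin D → ℝ)) : ℝ :=
  ∑ k, Ex L k (Φ k)

/-! ## The penalties in dimension eight -/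

/-- the class (`0`, `1`, `2`, `3`, or `4` for the irrelevant ones) of the coordinate `l` for the
direction `k` -/
def ty (k l : Fin 8) : ℕ :=
  (![![4, 4, 4, 0, 4, 0, 0, 4], ![4, 4, 0, 4, 0, 4, 4, 0], ![4, 0, 4, 4, 0, 4, 4, 0],
    ![0, 4, 4, 4, 4, 0, 0, 4], ![1, 0, 0, 2, 4, 3, 3, 4], ![0, 1, 2, 0, 3, 4, 4, 3],
    ![0, 1, 2, 0, 3, 4, 4, 3], ![1, 0, 0, 2, 4, 3, 3, 4]] : Fin 8 → Fin 8 → ℕ) k l

/-- the largest `|u i|` over the coordinates `i` of class `j` (for the direction `κ`), where the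
coordinate `i` carries the label `e i` -/
noncomputable def mm {D : ℕ} (e : Fin D → Fin 8) (κ : Fin 8) (u : Fin D → ℝ) (j : Fin 4) : ℝ :=
  ((Finset.univ.sup fun i : Fin D => if ty κ (e i) = (j : ℕ) then ‖u i‖₊ else 0 : ℝ≥0) : ℝ)

/-- the penalty as a function of the class maxima -/
noncomputable def gg (s : Fin 4 → ℝ) : ℝ :=
  max (s 0) (max ((s 1 + s 2) / 2) (max ((s 1 + s 3) / 2) ((s 2 + s 3) / 2)))

/-- the (rescaled) excess of some `|w l|`, `l ≠ k`, over `1 - δ` -/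
noncomputable def exc (δ : ℝ) (k : Fin 8) (w : Fin 8 → ℝ) : ℝ :=
  ⨆ l : {l : Fin 8 // l ≠ k}, max 0 ((|w l| - (1 - δ)) / δ)

/-- the penalty in direction `k` -/
noncomputable def Pf (δ : ℝ) (k : Fin 8) (w : Fin 8 → ℝ) : ℝ := max (gg (mm id k w)) (exc δ k w)

/-- brick PEN: the properties of the penalties -/
def S_PEN : Prop := ∀ δ : ℝ, 0 < δ → δ ≤ 1 →
  Pen (Pf δ) ∧
  (∀ k w (l : Fin 8), l ≠ k → (|w l| - (1 - δ)) / δ ≤ Pf δ k w) ∧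
  (∀ k w, gg (mm id k w) ≤ Pf δ k w) ∧
  (∀ k w, Pf δ k w ≤ gg (mm id k w) +
    ∑ l ∈ Finset.univ.erase k, max 0 ((|w l| - (1 - δ)) / δ)) ∧
  (∀ k w (s : ℝ), 0 ≤ s → gg (mm id k (fun i => s * w i)) = s * gg (mm id k w))

/-! ## The non-lattice packing -/

/-- parities -/
def par8 (Z : Fin 8 → ℤ) (i : Fin 8) : Bool := decide (Z i % 2 = 1)

/-- The centres: `Z` shifted by `1/2` in the coordinates selected by `f (par8 Z)`. -/
noncomputable def tau8 (f : (Fin 8 → Bool) → (Fin 8 → Bool)) (Z : Fin 8 → ℤ) (l : Fin 8) : ℝ :=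
  (Z l : ℝ) + if f (par8 Z) l then 1 / 2 else 0

/-- the Keller function of the table `kellerNum` -/
def kelf (q : Fin 8 → Bool) : Fin 8 → Bool := bits 8 ((kellerNum >>> (8 * g1num q)) % 2 ^ 8)

/-- brick KEL: differences of centres -/
def S_KEL : Prop := ∀ Z Z' : Fin 8 → ℤ, Z ≠ Z' →
  (∃ l, 3 / 2 ≤ |tau8 kelf Z l - tau8 kelf Z' l|) ∨
  (∃ k l, k ≠ l ∧ 1 ≤ |tau8 kelf Z k - tau8 kelf Z' k| ∧ 1 ≤ |tau8 kelf Z l - tau8 kelf Z' l|) ∨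
  (∃ k, 1 ≤ |tau8 kelf Z k - tau8 kelf Z' k| ∧
    1 / 2 ≤ gg (mm id k (fun l => tau8 kelf Z l - tau8 kelf Z' l)))

/-! ## Means over the facets -/

/-- brick EXC: the mean of the excess in one coordinate -/
def S_EXC : Prop := ∀ (D : ℕ) (L : AddSubgroup (Fin D → ℝ)) (δ : ℝ) (k l : Fin D), IsTile L →
  0 < δ → δ ≤ 1 / 2 → l ≠ k → Ex L k (fun u => max 0 ((|u l| - (1 - δ)) / δ)) ≤ δ

/-- brick STEP: elimination of a coordinate `p` with `e_p ∈ L` -/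
def S_STEP : Prop := ∀ (D : ℕ) (L : AddSubgroup (Fin (D + 1) → ℝ)) (p : Fin (D + 1)), IsTile L →
  (Pi.single p (1 : ℝ) : Fin (D + 1) → ℝ) ∈ L →
  ∃ θ : (Fin D → ℝ) → ℝ,
    (∀ w ∈ L.map (remMap p), 0 ≤ θ w ∧ θ w < 1 ∧
      (Fin.insertNth p (θ w) w : Fin (D + 1) → ℝ) ∈ L) ∧
    ∀ (k : Fin D) (f : (Fin (D + 1) → ℝ) → ℝ), Ex L (p.succAbove k) f =
      Ex (L.map (remMap p)) k (fun w =>
        (1 - θ w) * f (Fin.insertNth p (θ w) w : Fin (D + 1) → ℝ) +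
          θ w * f (Fin.insertNth p (θ w - 1) w : Fin (D + 1) → ℝ))

/-- brick EV: the mean in the direction `p` with `e_p ∈ L`; linearity and monotonicity -/
def S_EV : Prop := ∀ (D : ℕ) (L : AddSubgroup (Fin D → ℝ)), IsTile L →
  (∀ (p : Fin D), (Pi.single p (1 : ℝ) : Fin D → ℝ) ∈ L → ∀ f : (Fin D → ℝ) → ℝ,
    (Pi.single p (1 : ℝ) : Fin D → ℝ) ∈ AA L p ∧ Ex L p f = f (Pi.single p (1 : ℝ))) ∧
  (∀ (k : Fin D) (f g : (Fin D → ℝ) → ℝ), (∀ u ∈ AA L k, f u ≤ g u) → Ex L k f ≤ Ex L k g) ∧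
  (∀ (k : Fin D) (f g : (Fin D → ℝ) → ℝ), Ex L k (fun u => f u + g u) = Ex L k f + Ex L k g) ∧
  (∀ (k : Fin D) (s : Finset (Fin D)) (f : Fin D → (Fin D → ℝ) → ℝ),
    Ex L k (fun u => ∑ l ∈ s, f l u) = ∑ l ∈ s, Ex L k (f l))

/-! ## The one-step operators -/

/-- the value `t` in a coordinate of class `j` -/
noncomputable def upd (s : Fin 4 → ℝ) (j : Fin 4) (t : ℝ) : Fin 4 → ℝ :=
  Function.update s j (max (s j) t)

/-- monotone and convex -/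
def Nice (β : (Fin 4 → ℝ) → ℝ) : Prop := Monotone β ∧ ConvexOn ℝ univ β

/-- `β'` bounds the means of `β` over one further coordinate of class `j` -/
def Stp (β β' : (Fin 4 → ℝ) → ℝ) (j : Fin 4) : Prop := ∀ (s : Fin 4 → ℝ) (θ : ℝ), 0 ≤ θ → θ ≤ 1 →
  (1 - θ) * β (upd s j θ) + θ * β (upd s j (1 - θ)) ≤ β' s

/-- the grid points -/
noncomputable def pt (n : Fin 4 → ℕ) : Fin 4 → ℝ := fun i => (n i : ℝ) / 8

/-- `β` is bounded by the table `T` at the grid points `≤ d` -/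
def GB (β : (Fin 4 → ℝ) → ℝ) (T : (Fin 4 → ℕ) → ℕ) (d : Fin 4 → ℕ) : Prop :=
  ∀ n : Fin 4 → ℕ, (∀ i, n i ≤ d i) → 1600000 * β (pt n) ≤ T n

/-- the check for the interval `[i/8, (i+1)/8]` -/
def ic (i a0 a1 b0 b1 t : ℕ) : Prop :=
  (8 - i) * a0 + i * b0 ≤ 8 * t ∧ (7 - i) * a1 + (i + 1) * b1 ≤ 8 * t ∧
    ((8 - i) * a1 + (7 - i) * a0 + i * b1 + (i + 1) * b0 ≤ 16 * t ∨
      ((8 - i) * a1 + (7 - i) * a0 + i * b1 + (i + 1) * b0 - 16 * t) ^ 2 ≤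
        4 * (8 * t - ((8 - i) * a0 + i * b0)) * (8 * t - ((7 - i) * a1 + (i + 1) * b1)))

/-- the value `i` in a coordinate of class `j`, on the grid -/
def up (n : Fin 4 → ℕ) (j : Fin 4) (i : ℕ) : Fin 4 → ℕ := Function.update n j (max (n j) i)

/-- the check for the passage from the table `T` to the table `T'` at the grid point `n` -/
def ck (T T' : (Fin 4 → ℕ) → ℕ) (j : Fin 4) (n : Fin 4 → ℕ) : Prop :=
  ∀ i < 4, ic i (T (up n j i)) (T (up n j (i + 1))) (T (up n j (8 - i))) (T (up n j (7 - i))) (T' n)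

/-- brick CVX -/
def S_CVX : Prop := ∀ β : (Fin 4 → ℝ) → ℝ, Nice β → ∀ j : Fin 4,
  ∃ β' : (Fin 4 → ℝ) → ℝ, Nice β' ∧ Stp β β' j ∧
    ∀ (T T' : (Fin 4 → ℕ) → ℕ) (d d' : Fin 4 → ℕ), d j = 8 → d' j ≤ 8 →
      (∀ i, i ≠ j → d' i ≤ d i) → GB β T d → (∀ n : Fin 4 → ℕ, (∀ i, n i ≤ d' i) → ck T T' j n) →
      GB β' T' d'

/-- brick TRI -/
def S_TRI : Prop := ∀ (θ φ ψ ψ' : ℝ) (n : ℤ), 0 ≤ θ → θ ≤ 1 → 0 ≤ φ → φ ≤ 1 → 0 ≤ ψ → ψ ≤ 1 →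
  0 ≤ ψ' → ψ' ≤ 1 → ψ' = ψ - θ + n →
  2 * θ * (1 - θ) + φ * (1 - φ) + (1 - φ) * (ψ * (1 - ψ)) + φ * (ψ' * (1 - ψ')) ≤ 17 / 18

end Pool.Agent.K3h26.KP
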