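import Pool.Agent.K3h26.KP.Tab

/-!
# The tables as bounds for the one-step operators (MP_c4753b_co)
-/

set_option autoImplicit false

namespace Pool.Agent.K3h26.KP

/-- number of removed coordinates of class `j` for the direction `κ` -/
def cn (κ : Fin 8) (m j : ℕ) : ℕ :=
  (Finset.univ.filter fun l : Fin 8 => m.testBit l = true ∧ ty κ l = j).card

/-- number of coordinates of class `j` for the direction `κ` -/
def tt (κ : Fin 8) (j : ℕ) : ℕ := (Finset.univ.filter fun l : Fin 8 => ty κ l = j).card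

/-- the table for the directions `4, 5, 6, 7` -/
def TS (a b c d M x y z : ℕ) : ℕ :=
  if b = 0 then
    if c = 0 then lk (t0N a d) (max (2 * M) (max (x + y) (max x y + z)) * 9 + max x y)
    else lk (t1N a d) ((M * 9 + x) * 9 + z)
  else
    if c = 0 then lk (t1N a d) ((M * 9 + y) * 9 + z)
    else lk (t2N a d) (M * 9 + z)

/-- the table for the direction `κ` when the coordinates in `m` are removed -/
def Tf (κ : Fin 8) (m : ℕ) (n : Fin 4 → ℕ) : ℕ :=
  if (κ : ℕ) < 4 then lk (tPN (cn κ m 0)) (n 0)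
  else TS (cn κ m 0) (cn κ m 1) (cn κ m 2) (cn κ m 3) (n 0) (n 1) (n 2) (n 3)

/-- the range of the grid -/
def df (κ : Fin 8) (m : ℕ) (j : Fin 4) : ℕ := if cn κ m j = tt κ j then 0 else 8

theorem cn_le (κ : Fin 8) (m j : ℕ) : cn κ m j ≤ tt κ j :=
  Finset.card_le_card fun l hl => by
    rw [Finset.mem_filter] at hl ⊢
    exact ⟨hl.1, hl.2.2⟩

theorem testBit_ins (m : ℕ) (p l : Fin 8) :
    (m ||| 2 ^ (p : ℕ)).testBit l = true ↔ m.testBit l = true ∨ l = p := by
  rw [Nat.testBit_or, Bool.or_eq_true, Nat.testBit_two_pow, decide_eq_true_iff, Fin.ext_iff]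
  tauto

theorem cn_ins (κ : Fin 8) (m j : ℕ) (p : Fin 8) (hp : m.testBit p = false) :
    cn κ (m ||| 2 ^ (p : ℕ)) j = cn κ m j + if ty κ p = j then 1 else 0 := by
  classical
  unfold cn
  split_ifs with h
  · have e : (Finset.univ.filter fun l : Fin 8 =>
        (m ||| 2 ^ (p : ℕ)).testBit l = true ∧ ty κ l = j) =
        insert p (Finset.univ.filter fun l : Fin 8 => m.testBit l = true ∧ ty κ l = j) := by
      ext l
      simp only [Finset.mem_filter, Finset.mem_univ, true_and, Finset.mem_insert, testBit_ins]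
      constructor
      · rintro ⟨h1 | h1, h2⟩
        · exact Or.inr ⟨h1, h2⟩
        · exact Or.inl h1
      · rintro (rfl | ⟨h1, h2⟩)
        · exact ⟨Or.inr rfl, h⟩
        · exact ⟨Or.inl h1, h2⟩
    rw [e, Finset.card_insert_of_notMem]
    simp [hp]
  · have e : (Finset.univ.filter fun l : Fin 8 =>
        (m ||| 2 ^ (p : ℕ)).testBit l = true ∧ ty κ l = j) =
        Finset.univ.filter fun l : Fin 8 => m.testBit l = true ∧ ty κ l = j := by
      ext l
      simp only [Finset.mem_filter, Finset.mem_univ, true_and, testBit_ins]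
      constructor
      · rintro ⟨h1 | h1, h2⟩
        · exact ⟨h1, h2⟩
        · exact absurd (h1 ▸ h2) h
      · rintro ⟨h1, h2⟩
        exact ⟨Or.inl h1, h2⟩
    rw [e, add_zero]

theorem rg_of {x a t : ℕ} (h : x ≤ if a = t then 0 else 8) : x < rg a t := by
  unfold rg
  split_ifs at h ⊢ <;> omega

theorem TS0 {a b c d M x y z : ℕ} (ha : a < 2) (hb : b < 2) (hc : c < 2) (hd : d < 3)
    (hM : M < rg (a + 1) 2) (hx : x < 9) (hy : y < 9) (hz : z < rg d 2) (i : ℕ) (hi : i < 4) :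
    ic i (TS a b c d (max M i) x y z) (TS a b c d (max M (i + 1)) x y z)
      (TS a b c d (max M (8 - i)) x y z) (TS a b c d (max M (7 - i)) x y z)
      (TS (a + 1) b c d M x y z) := by
  have hM9 : M < 9 := hM.trans_le (by unfold rg; split_ifs <;> omega)
  have hz9 : z < 9 := hz.trans_le (by unfold rg; split_ifs <;> omega)
  interval_cases b <;> interval_cases c
  · have h := ic_of_c4 (al_iff (al_iff (al_iff (al_iff c0A_ok ha) hd)
      (i := max (2 * M) (max (x + y) (max x y + z))) (by omega)) (i := max x y) (by omega)) i hi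
    have e : ∀ t, TS a 0 0 d (max M t) x y z =
        lk (t0N a d) (max (max (2 * M) (max (x + y) (max x y + z))) (2 * t) * 9 + max x y) := by
      intro t
      unfold TS
      rw [if_pos rfl, if_pos rfl]
      congr 3
      omega
    rw [e, e, e, e]
    exact h
  · exact ic_of_c4 (al_iff (al_iff (al_iff (al_iff (al_iff c1A_ok ha) hd) hM) hx) hz) i hi
  · exact ic_of_c4 (al_iff (al_iff (al_iff (al_iff (al_iff c1A_ok ha) hd) hM) hy) hz) i hi
  · exact ic_of_c4 (al_iff (al_iff (al_iff (al_iff c2A_ok ha) hd) hM) hz) i hi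

theorem TS3 {a b c d M x y z : ℕ} (ha : a < 3) (hb : b < 2) (hc : c < 2) (hd : d < 2)
    (hM : M < rg a 2) (hx : x < 9) (hy : y < 9) (hz : z < rg (d + 1) 2) (i : ℕ) (hi : i < 4) :
    ic i (TS a b c d M x y (max z i)) (TS a b c d M x y (max z (i + 1)))
      (TS a b c d M x y (max z (8 - i))) (TS a b c d M x y (max z (7 - i)))
      (TS a b c (d + 1) M x y z) := by
  have hM9 : M < 9 := hM.trans_le (by unfold rg; split_ifs <;> omega)
  have hz9 : z < 9 := hz.trans_le (by unfold rg; split_ifs <;> omega)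
  interval_cases b <;> interval_cases c
  · have h := ic_of_c4 (al_iff (al_iff (al_iff (al_iff c0C_ok ha) hd)
      (i := max (2 * M) (max (x + y) (max x y + z))) (by omega)) (i := max x y) (by omega)) i hi
    have e : ∀ t, TS a 0 0 d M x y (max z t) =
        lk (t0N a d) (max (max (2 * M) (max (x + y) (max x y + z))) (max x y + t) * 9 +
          max x y) := by
      intro t
      unfold TS
      rw [if_pos rfl, if_pos rfl]
      congr 3
      omega
    rw [e, e, e, e]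
    exact h
  · exact ic_of_c4 (al_iff (al_iff (al_iff (al_iff (al_iff c1C_ok ha) hd) hM) hx) hz) i hi
  · exact ic_of_c4 (al_iff (al_iff (al_iff (al_iff (al_iff c1C_ok ha) hd) hM) hy) hz) i hi
  · exact ic_of_c4 (al_iff (al_iff (al_iff (al_iff c2C_ok ha) hd) hM) hz) i hi

theorem TS1 {a c d M y z : ℕ} (ha : a < 3) (hc : c < 2) (hd : d < 3)
    (hM : M < rg a 2) (hy : y < 9) (hz : z < rg d 2) (i : ℕ) (hi : i < 4) :
    ic i (TS a 0 c d M (max 0 i) y z) (TS a 0 c d M (max 0 (i + 1)) y z)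
      (TS a 0 c d M (max 0 (8 - i)) y z) (TS a 0 c d M (max 0 (7 - i)) y z)
      (TS a 1 c d M 0 y z) := by
  interval_cases c
  · have h := ic_of_c4 (al_iff (al_iff (al_iff (al_iff (al_iff c1B_ok ha) hd) hM) hy) hz) i hi
    have e : ∀ t, TS a 0 0 d M (max 0 t) y z =
        lk (t0N a d) (max (2 * M) (max (y + t) (max y t + z)) * 9 + max y t) := by
      intro t
      unfold TS
      rw [if_pos rfl, if_pos rfl]
      rw [Nat.zero_max, Nat.add_comm t y, Nat.max_comm t y]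
    rw [e, e, e, e]
    exact h
  · have h := ic_of_c4 (al_iff (al_iff (al_iff (al_iff c2B_ok ha) hd) hM) hz) i hi
    simp only [Nat.zero_max]
    exact h

theorem TS2 {a b d M x z : ℕ} (ha : a < 3) (hb : b < 2) (hd : d < 3)
    (hM : M < rg a 2) (hx : x < 9) (hz : z < rg d 2) (i : ℕ) (hi : i < 4) :
    ic i (TS a b 0 d M x (max 0 i) z) (TS a b 0 d M x (max 0 (i + 1)) z)
      (TS a b 0 d M x (max 0 (8 - i)) z) (TS a b 0 d M x (max 0 (7 - i)) z)
      (TS a b 1 d M x 0 z) := by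
  interval_cases b
  · have h := ic_of_c4 (al_iff (al_iff (al_iff (al_iff (al_iff c1B_ok ha) hd) hM) hx) hz) i hi
    have e : ∀ t, TS a 0 0 d M x (max 0 t) z =
        lk (t0N a d) (max (2 * M) (max (x + t) (max x t + z)) * 9 + max x t) := by
      intro t
      unfold TS
      rw [if_pos rfl, if_pos rfl, Nat.zero_max]
    rw [e, e, e, e]
    exact h
  · have h := ic_of_c4 (al_iff (al_iff (al_iff (al_iff c2B_ok ha) hd) hM) hz) i hi
    simp only [Nat.zero_max]
    exact h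

theorem tt_lt : ∀ κ : Fin 8, (κ : ℕ) < 4 → tt κ 0 = 3 ∧ tt κ 1 = 0 ∧ tt κ 2 = 0 ∧ tt κ 3 = 0 := by
  decide

theorem tt_ge : ∀ κ : Fin 8, ¬ (κ : ℕ) < 4 →
    tt κ 0 = 2 ∧ tt κ 1 = 1 ∧ tt κ 2 = 1 ∧ tt κ 3 = 2 := by
  decide

theorem up_self (n : Fin 4 → ℕ) (j : Fin 4) (i : ℕ) : up n j i j = max (n j) i := by
  unfold up
  rw [Function.update_self]

theorem up_ne (n : Fin 4 → ℕ) {j l : Fin 4} (h : l ≠ j) (i : ℕ) : up n j i l = n l := by
  unfold up
  rw [Function.update_of_ne h]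

theorem tab_step (κ : Fin 8) (m : ℕ) (p : Fin 8) (j : Fin 4) (hp : m.testBit p = false)
    (hj : ty κ p = (j : ℕ)) (n : Fin 4 → ℕ) (hn : ∀ i, n i ≤ df κ (m ||| 2 ^ (p : ℕ)) i) :
    ck (Tf κ m) (Tf κ (m ||| 2 ^ (p : ℕ))) j n := by
  intro i hi
  have h0 := hn 0
  have h1 := hn 1
  have h2 := hn 2
  have h3 := hn 3
  have l0 := cn_le κ (m ||| 2 ^ (p : ℕ)) 0
  have l1 := cn_le κ (m ||| 2 ^ (p : ℕ)) 1
  have l2 := cn_le κ (m ||| 2 ^ (p : ℕ)) 2
  have l3 := cn_le κ (m ||| 2 ^ (p : ℕ)) 3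
  unfold df at h0 h1 h2 h3
  have v0 : ((0 : Fin 4) : ℕ) = 0 := rfl
  have v1 : ((1 : Fin 4) : ℕ) = 1 := rfl
  have v2 : ((2 : Fin 4) : ℕ) = 2 := rfl
  have v3 : ((3 : Fin 4) : ℕ) = 3 := rfl
  rw [v0] at h0
  rw [v1] at h1
  rw [v2] at h2
  rw [v3] at h3
  rw [cn_ins κ m _ p hp] at h0 h1 h2 h3 l0 l1 l2 l3
  rw [hj] at h0 h1 h2 h3 l0 l1 l2 l3
  unfold Tf
  rw [cn_ins κ m _ p hp, cn_ins κ m _ p hp, cn_ins κ m _ p hp, cn_ins κ m _ p hp, hj]
  by_cases hκ : (κ : ℕ) < 4
  · obtain ⟨t0, t1, t2, t3⟩ := tt_lt κ hκ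
    rw [t0] at h0 l0
    rw [t1] at l1
    rw [t2] at l2
    rw [t3] at l3
    simp only [if_pos hκ]
    have hj0 : j = 0 := by
      fin_cases j
      · rfl
      · simp at l1
      · simp at l2
      · simp at l3
    subst hj0
    rw [v0, if_pos rfl] at h0 l0 ⊢
    rw [up_self, up_self, up_self, up_self]
    exact ic_of_c4 (al_iff (al_iff cPA_ok (i := cn κ m 0) (by omega)) (rg_of h0)) i hi
  · obtain ⟨t0, t1, t2, t3⟩ := tt_ge κ hκ
    rw [t0] at h0 l0
    rw [t1] at h1 l1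
    rw [t2] at h2 l2
    rw [t3] at h3 l3
    simp only [if_neg hκ]
    have b0 : n 0 < 9 := (rg_of h0).trans_le (by unfold rg; split_ifs <;> omega)
    have b1 : n 1 < 9 := (rg_of h1).trans_le (by unfold rg; split_ifs <;> omega)
    have b2 : n 2 < 9 := (rg_of h2).trans_le (by unfold rg; split_ifs <;> omega)
    have b3 : n 3 < 9 := (rg_of h3).trans_le (by unfold rg; split_ifs <;> omega)
    have hjc : j = 0 ∨ j = 1 ∨ j = 2 ∨ j = 3 := by fin_cases j <;> simp
    rcases hjc with rfl | rfl | rfl | rfl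
    · rw [v0] at h0 h1 h2 h3 l0 l1 l2 l3 ⊢
      simp only [up_self, up_ne _ (show (1 : Fin 4) ≠ 0 by decide),
        up_ne _ (show (2 : Fin 4) ≠ 0 by decide), up_ne _ (show (3 : Fin 4) ≠ 0 by decide)]
      rw [if_pos rfl] at h0 l0
      rw [if_pos trivial]
      rw [if_neg (show ¬ (0 : ℕ) = 1 by decide), add_zero] at h1 l1 ⊢
      rw [if_neg (show ¬ (0 : ℕ) = 2 by decide), add_zero] at h2 l2 ⊢
      rw [if_neg (show ¬ (0 : ℕ) = 3 by decide), add_zero] at h3 l3 ⊢
      exact TS0 (by omega) (by omega) (by omega) (by omega) (rg_of h0) b1 b2 (rg_of h3) i hi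
    · rw [v1] at h0 h1 h2 h3 l0 l1 l2 l3 ⊢
      simp only [up_self, up_ne _ (show (0 : Fin 4) ≠ 1 by decide),
        up_ne _ (show (2 : Fin 4) ≠ 1 by decide), up_ne _ (show (3 : Fin 4) ≠ 1 by decide)]
      rw [if_neg (show ¬ (1 : ℕ) = 0 by decide), add_zero] at h0 l0 ⊢
      rw [if_pos rfl] at h1 l1
      rw [if_pos trivial]
      rw [if_neg (show ¬ (1 : ℕ) = 2 by decide), add_zero] at h2 l2 ⊢
      rw [if_neg (show ¬ (1 : ℕ) = 3 by decide), add_zero] at h3 l3 ⊢
      have e1 : cn κ m 1 = 0 := by omega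
      have e2 : n 1 = 0 := by
        rw [e1] at h1
        simpa using h1
      rw [e1, e2]
      exact TS1 (by omega) (by omega) (by omega) (rg_of h0) b2 (rg_of h3) i hi
    · rw [v2] at h0 h1 h2 h3 l0 l1 l2 l3 ⊢
      simp only [up_self, up_ne _ (show (0 : Fin 4) ≠ 2 by decide),
        up_ne _ (show (1 : Fin 4) ≠ 2 by decide), up_ne _ (show (3 : Fin 4) ≠ 2 by decide)]
      rw [if_neg (show ¬ (2 : ℕ) = 0 by decide), add_zero] at h0 l0 ⊢
      rw [if_neg (show ¬ (2 : ℕ) = 1 by decide), add_zero] at h1 l1 ⊢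
      rw [if_pos rfl] at h2 l2
      rw [if_pos trivial]
      rw [if_neg (show ¬ (2 : ℕ) = 3 by decide), add_zero] at h3 l3 ⊢
      have e1 : cn κ m 2 = 0 := by omega
      have e2 : n 2 = 0 := by
        rw [e1] at h2
        simpa using h2
      rw [e1, e2]
      exact TS2 (by omega) (by omega) (by omega) (rg_of h0) b1 (rg_of h3) i hi
    · rw [v3] at h0 h1 h2 h3 l0 l1 l2 l3 ⊢
      simp only [up_self, up_ne _ (show (0 : Fin 4) ≠ 3 by decide),
        up_ne _ (show (1 : Fin 4) ≠ 3 by decide), up_ne _ (show (2 : Fin 4) ≠ 3 by decide)]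
      rw [if_neg (show ¬ (3 : ℕ) = 0 by decide), add_zero] at h0 l0 ⊢
      rw [if_neg (show ¬ (3 : ℕ) = 1 by decide), add_zero] at h1 l1 ⊢
      rw [if_neg (show ¬ (3 : ℕ) = 2 by decide), add_zero] at h2 l2 ⊢
      rw [if_pos rfl] at h3 l3
      rw [if_pos trivial]
      exact TS3 (by omega) (by omega) (by omega) (by omega) (rg_of h0) b1 b2 (rg_of h3) i hi

end Pool.Agent.K3h26.KP
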