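import Pool.Agent.K3h26.KP.Ind

/-!
# The bound for the lattice tilings in dimension eight (MP_c4753b_co)
-/

set_option autoImplicit false

open MeasureTheory Filter Topology Set
open scoped ENNReal NNReal

namespace Pool.Agent.K3h26.KP

open H947TP

theorem gg_mono : Monotone gg := by
  intro s t h
  unfold gg
  have h0 := h 0
  have h1 := h 1
  have h2 := h 2
  have h3 := h 3
  exact max_le_max h0 (max_le_max (by linarith) (max_le_max (by linarith) (by linarith)))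

theorem gg_nice : Nice gg := by
  refine ⟨gg_mono, convex_univ, fun s _ t _ a b ha hb hab => ?_⟩
  simp only [smul_eq_mul]
  have e : ∀ i, (a • s + b • t) i = a * s i + b * t i := fun i => rfl
  have k0 : s 0 ≤ gg s := le_max_left _ _
  have k1 : (s 1 + s 2) / 2 ≤ gg s := (le_max_left _ _).trans (le_max_right _ _)
  have k2 : (s 1 + s 3) / 2 ≤ gg s :=
    (le_max_left _ _).trans ((le_max_right _ _).trans (le_max_right _ _))
  have k3 : (s 2 + s 3) / 2 ≤ gg s :=
    (le_max_right _ _).trans ((le_max_right _ _).trans (le_max_right _ _))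
  have l0 : t 0 ≤ gg t := le_max_left _ _
  have l1 : (t 1 + t 2) / 2 ≤ gg t := (le_max_left _ _).trans (le_max_right _ _)
  have l2 : (t 1 + t 3) / 2 ≤ gg t :=
    (le_max_left _ _).trans ((le_max_right _ _).trans (le_max_right _ _))
  have l3 : (t 2 + t 3) / 2 ≤ gg t :=
    (le_max_right _ _).trans ((le_max_right _ _).trans (le_max_right _ _))
  have q0 := add_le_add (mul_le_mul_of_nonneg_left k0 ha) (mul_le_mul_of_nonneg_left l0 hb)
  have q1 := add_le_add (mul_le_mul_of_nonneg_left k1 ha) (mul_le_mul_of_nonneg_left l1 hb)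
  have q2 := add_le_add (mul_le_mul_of_nonneg_left k2 ha) (mul_le_mul_of_nonneg_left l2 hb)
  have q3 := add_le_add (mul_le_mul_of_nonneg_left k3 ha) (mul_le_mul_of_nonneg_left l3 hb)
  conv_lhs => unfold gg
  rw [e, e, e, e]
  refine max_le q0 (max_le ?_ (max_le ?_ ?_))
  · linarith
  · linarith
  · linarith

theorem gg_GB (κ : Fin 8) : GB gg (Tf κ 0) (df κ 0) := by
  intro n hn
  have c0 : ∀ j, cn κ 0 j = 0 := by
    intro j
    unfold cn
    simp
  have h0 := (hn 0).trans (df_le _ _ _)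
  have h1 := (hn 1).trans (df_le _ _ _)
  have h2 := (hn 2).trans (df_le _ _ _)
  have h3 := (hn 3).trans (df_le _ _ _)
  unfold Tf
  simp only [c0]
  by_cases hκ : (κ : ℕ) < 4
  · rw [if_pos hκ]
    obtain ⟨t0, t1, t2, t3⟩ := tt_lt κ hκ
    have z : ∀ j : Fin 4, tt κ j = 0 → n j = 0 := by
      intro j hj
      have := hn j
      unfold df at this
      rw [c0, hj, if_pos rfl] at this
      omega
    have z1 := z 1 t1
    have z2 := z 2 t2
    have z3 := z 3 t3
    have h := Nat.eq_of_beq_eq_true (al_iff baseP_ok (i := n 0) (by omega))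
    rw [h]
    unfold gg pt
    rw [z1, z2, z3]
    have hn0 : (0 : ℝ) ≤ n 0 := Nat.cast_nonneg _
    have : max ((n 0 : ℝ) / 8) (max ((((0 : ℕ) : ℝ) / 8 + ((0 : ℕ) : ℝ) / 8) / 2)
        (max ((((0 : ℕ) : ℝ) / 8 + ((0 : ℕ) : ℝ) / 8) / 2)
          ((((0 : ℕ) : ℝ) / 8 + ((0 : ℕ) : ℝ) / 8) / 2))) ≤ (n 0 : ℝ) / 8 := by
      refine max_le le_rfl (max_le ?_ (max_le ?_ ?_)) <;> · push_cast; linarith
    push_cast at this ⊢
    linarith
  · rw [if_neg hκ]
    unfold TS
    rw [if_pos rfl, if_pos rfl]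
    have h := Nat.eq_of_beq_eq_true (al_iff (al_iff base_ok
      (i := max (2 * n 0) (max (n 1 + n 2) (max (n 1) (n 2) + n 3))) (by omega))
      (i := max (n 1) (n 2)) (by omega))
    rw [h]
    set V := max (2 * n 0) (max (n 1 + n 2) (max (n 1) (n 2) + n 3)) with hV
    have v0 : 2 * n 0 ≤ V := by omega
    have v1 : n 1 + n 2 ≤ V := by omega
    have v2 : n 1 + n 3 ≤ V := by omega
    have v3 : n 2 + n 3 ≤ V := by omega
    have w0 : 2 * (n 0 : ℝ) ≤ V := by exact_mod_cast v0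
    have w1 : (n 1 : ℝ) + n 2 ≤ V := by exact_mod_cast v1
    have w2 : (n 1 : ℝ) + n 3 ≤ V := by exact_mod_cast v2
    have w3 : (n 2 : ℝ) + n 3 ≤ V := by exact_mod_cast v3
    have : gg (pt n) ≤ (V : ℝ) / 16 := by
      unfold gg pt
      refine max_le ?_ (max_le ?_ (max_le ?_ ?_)) <;> linarith
    push_cast
    linarith

/-- elimination of the coordinate `p` in the direction `k` for the function `gg` -/
theorem gg_upd_A (s : Fin 4 → ℝ) (hs : s = fun _ => 0) (t : ℝ) (ht : 0 ≤ t) :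
    gg (upd s 0 t) = t := by
  subst hs
  unfold gg upd
  rw [Function.update_self, Function.update_of_ne (by decide), Function.update_of_ne (by decide),
    Function.update_of_ne (by decide)]
  simp [ht]

theorem gg_upd_B (a b : Fin 4) (h : (a = 1 ∧ b = 2) ∨ (a = 2 ∧ b = 1)) (s : Fin 4 → ℝ)
    (hs : s = fun _ => 0) (t r : ℝ) (ht : 0 ≤ t) (hr : 0 ≤ r) :
    gg (upd (upd s a t) b r) = (t + r) / 2 := by
  subst hs
  unfold gg upd
  rcases h with ⟨rfl, rfl⟩ | ⟨rfl, rfl⟩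
  · simp [ht, hr]
    refine le_antisymm (max_le (by linarith) (max_le le_rfl (max_le (by linarith) (by linarith))))
      ((le_max_left _ _).trans (le_max_right _ _))
  · simp [ht, hr]
    refine le_antisymm (max_le (by linarith) (max_le (by linarith)
      (max_le (by linarith) (by linarith)))) ?_
    rw [add_comm]
    exact (le_max_left _ _).trans (le_max_right _ _)

/-- the first three directions in the special orders -/
theorem triple (hEV : S_EV) (hTRI : S_TRI) (L : AddSubgroup (Fin 8 → ℝ)) (hL : IsTile L)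
    (p : Fin 8) (hp : (Pi.single p (1 : ℝ) : Fin 8 → ℝ) ∈ L)
    (hL1 : IsTile (L.map (remMap p))) (θ : (Fin 7 → ℝ) → ℝ)
    (hθ : ∀ w ∈ L.map (remMap p), 0 ≤ θ w ∧ θ w < 1 ∧
      (Fin.insertNth p (θ w) w : Fin 8 → ℝ) ∈ L)
    (hex : ∀ (k : Fin 7) (f : (Fin 8 → ℝ) → ℝ), Ex L (p.succAbove k) f =
      Ex (L.map (remMap p)) k (fun w =>
        (1 - θ w) * f (Fin.insertNth p (θ w) w : Fin 8 → ℝ) +
          θ w * f (Fin.insertNth p (θ w - 1) w : Fin 8 → ℝ)))
    (q : Fin 7) (hq : (Pi.single q (1 : ℝ) : Fin 7 → ℝ) ∈ L.map (remMap p))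
    (hL2 : IsTile ((L.map (remMap p)).map (remMap q))) (θ' : (Fin 6 → ℝ) → ℝ)
    (hθ' : ∀ w ∈ (L.map (remMap p)).map (remMap q), 0 ≤ θ' w ∧ θ' w < 1 ∧
      (Fin.insertNth q (θ' w) w : Fin 7 → ℝ) ∈ L.map (remMap p))
    (hex' : ∀ (k : Fin 6) (f : (Fin 7 → ℝ) → ℝ), Ex (L.map (remMap p)) (q.succAbove k) f =
      Ex ((L.map (remMap p)).map (remMap q)) k (fun w =>
        (1 - θ' w) * f (Fin.insertNth q (θ' w) w : Fin 7 → ℝ) +
          θ' w * f (Fin.insertNth q (θ' w - 1) w : Fin 7 → ℝ)))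
    (r : Fin 6) (hr : (Pi.single r (1 : ℝ) : Fin 6 → ℝ) ∈ (L.map (remMap p)).map (remMap q))
    (hpps : pps p (p.succAbove q) (p.succAbove (q.succAbove r))) :
    Ex L (p.succAbove q) (fun u => gg (mm id (p.succAbove q) u)) +
      Ex L (p.succAbove (q.succAbove r))
        (fun u => gg (mm id (p.succAbove (q.succAbove r)) u)) ≤ 17 / 18 := by
  obtain ⟨h1, h2⟩ := hpps
  set L1 := L.map (remMap p) with hL1d
  set L2 := L1.map (remMap q) with hL2d
  set Q := p.succAbove q with hQ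
  set R := p.succAbove (q.succAbove r) with hR
  -- the direction `Q`
  set t := θ (Pi.single q (1 : ℝ)) with ht
  obtain ⟨t0, t1, t2⟩ := hθ _ hq
  have hA : Ex L Q (fun u => gg (mm id Q u)) = 2 * t * (1 - t) := by
    rw [hQ, hex, ((hEV 7 L1 hL1).1 q hq _).2]
    have e0 : mm ((id : Fin 8 → Fin 8) ∘ p.succAbove) Q (Pi.single q (1 : ℝ)) = fun _ => 0 :=
      mm_single ((id : Fin 8 → Fin 8) ∘ p.succAbove) q
    rw [mm_insert_eq (id : Fin 8 → Fin 8) p Q _ _ 0 h1, mm_insert_eq (id : Fin 8 → Fin 8) p Q _ _ 0 h1,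
      gg_upd_A _ e0 _ (abs_nonneg _), gg_upd_A _ e0 _ (abs_nonneg _), abs_of_nonneg t0,
      abs_of_nonpos (by linarith)]
    ring
  -- the direction `R`
  obtain ⟨a, b, hab, ha, hb⟩ : ∃ a b : Fin 4, ((a = 1 ∧ b = 2) ∨ (a = 2 ∧ b = 1)) ∧
      ty R Q = (a : ℕ) ∧ ty R p = (b : ℕ) := by
    rcases h2 with ⟨h3, h4⟩ | ⟨h3, h4⟩
    · exact ⟨2, 1, Or.inr ⟨rfl, rfl⟩, h4, h3⟩
    · exact ⟨1, 2, Or.inl ⟨rfl, rfl⟩, h4, h3⟩
  have hF : ∀ (s v : ℝ), gg (mm (id : Fin 8 → Fin 8) R (Fin.insertNth p v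
      (Fin.insertNth q s (Pi.single r (1 : ℝ)) : Fin 7 → ℝ) : Fin 8 → ℝ)) = (|s| + |v|) / 2 := by
    intro s v
    have e0 : mm (((id : Fin 8 → Fin 8) ∘ p.succAbove) ∘ q.succAbove) R
        (Pi.single r (1 : ℝ)) = fun _ => 0 :=
      mm_single (((id : Fin 8 → Fin 8) ∘ p.succAbove) ∘ q.succAbove) r
    rw [mm_insert_eq (id : Fin 8 → Fin 8) p R _ _ b hb,
      mm_insert_eq ((id : Fin 8 → Fin 8) ∘ p.succAbove) q R _ _ a ha,
      gg_upd_B a b hab _ e0 _ _ (abs_nonneg _) (abs_nonneg _)]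
  set f := θ' (Pi.single r (1 : ℝ)) with hf
  obtain ⟨f0, f1, f2⟩ := hθ' _ hr
  rw [← hf] at f0 f1 f2
  set w1 : Fin 7 → ℝ := Fin.insertNth q f (Pi.single r (1 : ℝ)) with hw1
  set w2 : Fin 7 → ℝ := Fin.insertNth q (f - 1) (Pi.single r (1 : ℝ)) with hw2
  have hw12 : w2 = w1 - Pi.single q (1 : ℝ) := by
    funext i
    rcases Fin.eq_self_or_eq_succAbove q i with hi | ⟨i', hi⟩
    · rw [hi, Pi.sub_apply, hw1, hw2, Fin.insertNth_apply_same, Fin.insertNth_apply_same,
        Pi.single_eq_same]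
    · rw [hi, Pi.sub_apply, hw1, hw2, Fin.insertNth_apply_succAbove,
        Fin.insertNth_apply_succAbove, Pi.single_eq_of_ne (Fin.succAbove_ne q i'), sub_zero]
  have hw2L : w2 ∈ L1 := by
    rw [hw12]
    exact L1.sub_mem f2 hq
  obtain ⟨a0, a1, a2⟩ := hθ _ f2
  obtain ⟨b0, b1, b2⟩ := hθ _ hw2L
  set ψ := θ w1 with hψ
  set ψ' := θ w2 with hψ'
  have hB : Ex L R (fun u => gg (mm id R u)) =
      f * (1 - f) + (1 - f) * (ψ * (1 - ψ)) + f * (ψ' * (1 - ψ')) := by
    rw [hR, hex, hex', ((hEV 6 L2 hL2).1 r hr _).2]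
    rw [← hf, ← hw1, ← hw2, ← hψ, ← hψ']
    rw [hw1, hF, hF, hw2, hF, hF, abs_of_nonneg f0, abs_of_nonneg a0,
      abs_of_nonpos (by linarith : ψ - 1 ≤ 0), abs_of_nonpos (by linarith : f - 1 ≤ 0),
      abs_of_nonneg b0, abs_of_nonpos (by linarith : ψ' - 1 ≤ 0)]
    ring
  -- the relation
  obtain ⟨n, hn⟩ : ∃ n : ℤ, ψ' = ψ - t + n := by
    have c1 : (Fin.insertNth p (ψ - t) w2 : Fin 8 → ℝ) ∈ L := by
      have : (Fin.insertNth p (ψ - t) w2 : Fin 8 → ℝ) =
          Fin.insertNth p ψ w1 - Fin.insertNth p t (Pi.single q (1 : ℝ)) := by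
        funext i
        rcases Fin.eq_self_or_eq_succAbove p i with hi | ⟨i', hi⟩
        · rw [hi, Pi.sub_apply, Fin.insertNth_apply_same, Fin.insertNth_apply_same,
            Fin.insertNth_apply_same]
        · rw [hi, Pi.sub_apply, Fin.insertNth_apply_succAbove, Fin.insertNth_apply_succAbove,
            Fin.insertNth_apply_succAbove, hw12]
          rfl
      rw [this]
      exact L.sub_mem a2 t2
    have c2 := C2ns.diff_int B3 hL hp c1 b2 (by
      funext i
      rw [C2ns.remMap_apply, C2ns.remMap_apply, Fin.insertNth_apply_succAbove,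
        Fin.insertNth_apply_succAbove])
    rw [Fin.insertNth_apply_same, Fin.insertNth_apply_same, Int.fract_eq_fract] at c2
    obtain ⟨z, hz⟩ := c2
    refine ⟨-z, ?_⟩
    push_cast
    linarith
  rw [hA, hB]
  have := hTRI t f ψ ψ' n t0 t1.le f0 f1.le a0 a1.le b0 b1.le hn
  linarith

end Pool.Agent.K3h26.KP
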